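import Mathlib

set_option autoImplicit false

/-!
An elementary (second moment) lower bound for the number of solutions of `x^k + y^k = t` in a finite
field.
-/

namespace Pool.Agent.H709L

open Finset

section count

variable {K : Type*} [Field K] [Fintype K] [DecidableEq K]

/-- nonzero `k`-th powers. -/
def kp (K : Type*) [Field K] [Fintype K] [DecidableEq K] (k : ℕ) : Finset K :=
  (univ.filter (fun x : K => x ≠ 0)).image (fun x => x ^ k)

lemma mem_kp {k : ℕ} {y : K} : y ∈ kp K k ↔ ∃ x : K, x ≠ 0 ∧ x ^ k = y := by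
  simp [kp]

lemma kp_ne_zero {k : ℕ} {y : K} (h : y ∈ kp K k) : y ≠ 0 := by
  obtain ⟨x, hx, rfl⟩ := mem_kp.1 h
  exact pow_ne_zero _ hx

lemma kp_mul {k : ℕ} {y z : K} (h : y ∈ kp K k) (h' : z ∈ kp K k) : y * z ∈ kp K k := by
  obtain ⟨x, hx, rfl⟩ := mem_kp.1 h
  obtain ⟨w, hw, rfl⟩ := mem_kp.1 h'
  exact mem_kp.2 ⟨x * w, mul_ne_zero hx hw, mul_pow _ _ _⟩

lemma kp_inv {k : ℕ} {y : K} (h : y ∈ kp K k) : y⁻¹ ∈ kp K k := by
  obtain ⟨x, hx, rfl⟩ := mem_kp.1 h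
  exact mem_kp.2 ⟨x⁻¹, inv_ne_zero hx, inv_pow _ _⟩

lemma card_kp {k : ℕ} (hk : 1 ≤ k) : Fintype.card K - 1 ≤ k * (kp K k).card := by
  classical
  have h1 : (univ.filter (fun x : K => x ≠ 0)).card = Fintype.card K - 1 := by
    rw [Finset.filter_ne', Finset.card_erase_of_mem (mem_univ _), Finset.card_univ]
  rw [← h1]
  refine Finset.card_le_mul_card_image _ k fun y _ => ?_
  have h2 : (univ.filter (fun x : K => x ≠ 0)).filter (fun x => x ^ k = y)
      ⊆ (Polynomial.nthRoots k y).toFinset := by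
    intro x hx
    rw [mem_filter] at hx
    rw [Multiset.mem_toFinset, Polynomial.mem_nthRoots (by omega)]
    exact hx.2
  exact (Finset.card_le_card h2).trans
    ((Multiset.toFinset_card_le _).trans (Polynomial.card_nthRoots k y))

/-- number of solutions of `a x + b y = t` in `H × H`. -/
def cnt (H : Finset K) (t a b : K) : ℕ :=
  ((H ×ˢ H).filter (fun p => a * p.1 + b * p.2 = t)).card

lemma cnt_eq (H : Finset K) (t a b : K) :
    (cnt H t a b : ℤ) = ∑ p ∈ H ×ˢ H, if a * p.1 + b * p.2 = t then (1 : ℤ) else 0 := by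
  rw [cnt, Finset.card_filter]; push_cast; rfl

lemma sum_single {H : Finset K} (hH : ∀ x ∈ H, x ≠ 0) (t : K) {p : K × K} (hp : p ∈ H ×ˢ H) :
    ∑ ab : K × K, (if ab.1 * p.1 + ab.2 * p.2 = t then (1 : ℤ) else 0) = Fintype.card K := by
  have h2 : p.2 ≠ 0 := hH _ (mem_product.1 hp).2
  rw [Fintype.sum_prod_type]
  have : ∀ a : K, ∑ b : K, (if a * p.1 + b * p.2 = t then (1 : ℤ) else 0) = 1 := by
    intro a
    have : ∀ b : K, (a * p.1 + b * p.2 = t) ↔ b = (t - a * p.1) / p.2 := by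
      intro b
      rw [eq_div_iff h2]
      constructor
      · intro h; rw [← h]; ring
      · intro h; rw [h]; ring
    simp only [this]
    rw [Finset.sum_ite_eq' univ]
    simp
  simp only [this]
  simp

lemma sum_pair {H : Finset K} (hH : ∀ x ∈ H, x ≠ 0) {t : K} (ht : t ≠ 0) {p p' : K × K}
    (hp : p ∈ H ×ˢ H) (hp' : p' ∈ H ×ˢ H) :
    ∑ ab : K × K, ((if ab.1 * p.1 + ab.2 * p.2 = t then (1 : ℤ) else 0) *
      (if ab.1 * p'.1 + ab.2 * p'.2 = t then (1 : ℤ) else 0))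
      ≤ (if p = p' then (Fintype.card K : ℤ) else 0) + 1 := by
  by_cases hpp : p = p'
  · subst hpp
    rw [if_pos rfl]
    have : ∀ ab : K × K, ((if ab.1 * p.1 + ab.2 * p.2 = t then (1 : ℤ) else 0) *
      (if ab.1 * p.1 + ab.2 * p.2 = t then (1 : ℤ) else 0))
        = (if ab.1 * p.1 + ab.2 * p.2 = t then (1 : ℤ) else 0) := by
      intro ab; split_ifs <;> simp
    simp only [this]
    rw [sum_single hH t hp]
    linarith
  · rw [if_neg hpp, zero_add]
    have : ∀ ab : K × K, ((if ab.1 * p.1 + ab.2 * p.2 = t then (1 : ℤ) else 0) *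
      (if ab.1 * p'.1 + ab.2 * p'.2 = t then (1 : ℤ) else 0))
        = (if (ab.1 * p.1 + ab.2 * p.2 = t ∧ ab.1 * p'.1 + ab.2 * p'.2 = t) then (1 : ℤ) else 0) := by
      intro ab; split_ifs <;> simp_all
    simp only [this]
    rw [Finset.sum_boole]
    have hc : ((univ : Finset (K × K)).filter (fun ab => ab.1 * p.1 + ab.2 * p.2 = t ∧
        ab.1 * p'.1 + ab.2 * p'.2 = t)).card ≤ 1 := by
      rw [Finset.card_le_one]
      rintro ⟨a, b⟩ h ⟨c, d⟩ h'
      simp only [mem_filter, mem_univ, true_and] at h h'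
      obtain ⟨h1, h2⟩ := h
      obtain ⟨h3, h4⟩ := h'
      -- determinant
      have hp1 : p.1 ≠ 0 := hH _ (mem_product.1 hp).1
      have hp2 : p.2 ≠ 0 := hH _ (mem_product.1 hp).2
      by_cases hdet : p.1 * p'.2 - p'.1 * p.2 = 0
      · exfalso
        apply hpp
        have e1 : t * p'.1 = t * p.1 := by
          have : t * p'.1 - t * p.1 = b * -(p.1 * p'.2 - p'.1 * p.2) := by
            conv_lhs => rw [show t * p'.1 = (a * p.1 + b * p.2) * p'.1 by rw [h1],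
              show t * p.1 = (a * p'.1 + b * p'.2) * p.1 by rw [h2]]
            ring
          rw [hdet, neg_zero, mul_zero] at this
          exact sub_eq_zero.1 this
        have e2 : t * p'.2 = t * p.2 := by
          have : t * p'.2 - t * p.2 = a * (p.1 * p'.2 - p'.1 * p.2) := by
            conv_lhs => rw [show t * p'.2 = (a * p.1 + b * p.2) * p'.2 by rw [h1],
              show t * p.2 = (a * p'.1 + b * p'.2) * p.2 by rw [h2]]
            ring
          rw [hdet, mul_zero] at this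
          exact sub_eq_zero.1 this
        exact Prod.ext (mul_left_cancel₀ ht e1).symm (mul_left_cancel₀ ht e2).symm
      · have e1 : (a - c) * (p.1 * p'.2 - p'.1 * p.2) = 0 := by
          have : (a - c) * (p.1 * p'.2 - p'.1 * p.2)
              = ((a * p.1 + b * p.2) - (c * p.1 + d * p.2)) * p'.2
                - ((a * p'.1 + b * p'.2) - (c * p'.1 + d * p'.2)) * p.2 := by ring
          rw [this, h1, h2, h3, h4]; ring
        have e2 : (b - d) * (p.1 * p'.2 - p'.1 * p.2) = 0 := by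
          have : (b - d) * (p.1 * p'.2 - p'.1 * p.2)
              = ((a * p'.1 + b * p'.2) - (c * p'.1 + d * p'.2)) * p.1
                - ((a * p.1 + b * p.2) - (c * p.1 + d * p.2)) * p'.1 := by ring
          rw [this, h1, h2, h3, h4]; ring
        have f1 := (mul_eq_zero.1 e1).resolve_right hdet
        have f2 := (mul_eq_zero.1 e2).resolve_right hdet
        exact Prod.ext (sub_eq_zero.1 f1) (sub_eq_zero.1 f2)
    exact_mod_cast hc

lemma second_moment {H : Finset K} (hH : ∀ x ∈ H, x ≠ 0) {t : K} (ht : t ≠ 0) :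
    ∑ ab : K × K, (Fintype.card K * (cnt H t ab.1 ab.2 : ℤ) - (H.card : ℤ) ^ 2) ^ 2
      ≤ (Fintype.card K : ℤ) ^ 3 * (H.card : ℤ) ^ 2 := by
  set Q : ℤ := ((Fintype.card K : ℕ) : ℤ) with hQ
  set h : ℤ := ((H.card : ℕ) : ℤ) with hh
  have S1 : ∑ ab : K × K, (cnt H t ab.1 ab.2 : ℤ) = Q * h ^ 2 := by
    simp only [cnt_eq]
    rw [Finset.sum_comm, Finset.sum_congr rfl (fun p hp => sum_single hH t hp), Finset.sum_const,
      Finset.card_product]
    simp only [nsmul_eq_mul]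
    push_cast
    rw [← hh, ← hQ]
    ring
  have S2 : ∑ ab : K × K, (cnt H t ab.1 ab.2 : ℤ) ^ 2 ≤ Q * h ^ 2 + h ^ 4 := by
    have e : ∀ ab : K × K, (cnt H t ab.1 ab.2 : ℤ) ^ 2 = ∑ p ∈ H ×ˢ H, ∑ p' ∈ H ×ˢ H,
        ((if ab.1 * p.1 + ab.2 * p.2 = t then (1 : ℤ) else 0) *
          (if ab.1 * p'.1 + ab.2 * p'.2 = t then (1 : ℤ) else 0)) := by
      intro ab
      rw [cnt_eq, sq, Finset.sum_mul_sum]
    simp only [e]
    rw [Finset.sum_comm]
    have e2 : ∀ p ∈ H ×ˢ H, ∑ ab : K × K, ∑ p' ∈ H ×ˢ H,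
        ((if ab.1 * p.1 + ab.2 * p.2 = t then (1 : ℤ) else 0) *
          (if ab.1 * p'.1 + ab.2 * p'.2 = t then (1 : ℤ) else 0)) ≤ Q + h ^ 2 := by
      intro p hp
      rw [Finset.sum_comm]
      calc _ ≤ ∑ p' ∈ H ×ˢ H, ((if p = p' then (Fintype.card K : ℤ) else 0) + 1) :=
            Finset.sum_le_sum fun p' hp' => sum_pair hH ht hp hp'
        _ = Q + h ^ 2 := by
            rw [Finset.sum_add_distrib, Finset.sum_ite_eq, if_pos hp, Finset.sum_const,
              Finset.card_product]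
            simp only [nsmul_eq_mul, mul_one]
            push_cast
            rw [← hh, ← hQ]; ring
    calc _ ≤ ∑ p ∈ H ×ˢ H, (Q + h ^ 2) := Finset.sum_le_sum e2
      _ = Q * h ^ 2 + h ^ 4 := by
            rw [Finset.sum_const, Finset.card_product]
            simp only [nsmul_eq_mul]
            push_cast
            rw [← hh]; ring
  have e3 : ∑ ab : K × K, (Q * (cnt H t ab.1 ab.2 : ℤ) - h ^ 2) ^ 2
      = Q ^ 2 * ∑ ab : K × K, (cnt H t ab.1 ab.2 : ℤ) ^ 2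
        - 2 * Q * h ^ 2 * ∑ ab : K × K, (cnt H t ab.1 ab.2 : ℤ) + Q ^ 2 * h ^ 4 := by
    have : ∀ ab : K × K, (Q * (cnt H t ab.1 ab.2 : ℤ) - h ^ 2) ^ 2
        = Q ^ 2 * (cnt H t ab.1 ab.2 : ℤ) ^ 2 - 2 * Q * h ^ 2 * (cnt H t ab.1 ab.2 : ℤ) + h ^ 4 := by
      intro ab; ring
    simp only [this]
    rw [Finset.sum_add_distrib, Finset.sum_sub_distrib, ← Finset.mul_sum, ← Finset.mul_sum,
      Finset.sum_const, Finset.card_univ, Fintype.card_prod]
    simp only [nsmul_eq_mul]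
    push_cast
    rw [← hQ]; ring
  rw [e3, S1]
  have hQ2 : 0 ≤ Q ^ 2 := sq_nonneg _
  nlinarith [mul_le_mul_of_nonneg_left S2 hQ2]

lemma cnt_const {k : ℕ} (t : K) {a b : K} (ha : a ∈ kp K k) (hb : b ∈ kp K k) :
    cnt (kp K k) t a b = cnt (kp K k) t 1 1 := by
  unfold cnt
  have ha0 := kp_ne_zero ha
  have hb0 := kp_ne_zero hb
  refine Finset.card_bij (fun p _ => (a * p.1, b * p.2)) ?_ ?_ ?_
  · intro p hp
    simp only [mem_filter, mem_product] at hp ⊢
    exact ⟨⟨kp_mul ha hp.1.1, kp_mul hb hp.1.2⟩, by rw [one_mul, one_mul]; exact hp.2⟩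
  · intro p hp p' hp' h
    simp only [Prod.mk.injEq] at h
    exact Prod.ext (mul_left_cancel₀ ha0 h.1) (mul_left_cancel₀ hb0 h.2)
  · intro p hp
    simp only [mem_filter, mem_product, one_mul] at hp
    refine ⟨(a⁻¹ * p.1, b⁻¹ * p.2), ?_, ?_⟩
    · simp only [mem_filter, mem_product]
      refine ⟨⟨kp_mul (kp_inv ha) hp.1.1, kp_mul (kp_inv hb) hp.1.2⟩, ?_⟩
      rw [mul_inv_cancel_left₀ ha0, mul_inv_cancel_left₀ hb0]; exact hp.2
    · simp only
      rw [mul_inv_cancel_left₀ ha0, mul_inv_cancel_left₀ hb0]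

lemma one_mem_kp (k : ℕ) : (1 : K) ∈ kp K k := mem_kp.2 ⟨1, one_ne_zero, one_pow _⟩

lemma moment_bound (k : ℕ) {t : K} (ht : t ≠ 0) :
    ((Fintype.card K : ℤ) * (cnt (kp K k) t 1 1 : ℤ) - ((kp K k).card : ℤ) ^ 2) ^ 2
      ≤ (Fintype.card K : ℤ) ^ 3 := by
  have h1 := second_moment (H := kp K k) (fun x hx => kp_ne_zero hx) ht
  set Q : ℤ := ((Fintype.card K : ℕ) : ℤ) with hQ
  set h : ℤ := (((kp K k).card : ℕ) : ℤ) with hh
  have hpos : 0 < h := by
    rw [hh]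
    exact_mod_cast Finset.card_pos.2 ⟨1, one_mem_kp k⟩
  have h2 : ∑ ab ∈ kp K k ×ˢ kp K k, (Q * (cnt (kp K k) t ab.1 ab.2 : ℤ) - h ^ 2) ^ 2
      ≤ ∑ ab : K × K, (Q * (cnt (kp K k) t ab.1 ab.2 : ℤ) - h ^ 2) ^ 2 :=
    Finset.sum_le_sum_of_subset_of_nonneg (subset_univ _) fun _ _ _ => sq_nonneg _
  have h3 : ∑ ab ∈ kp K k ×ˢ kp K k, (Q * (cnt (kp K k) t ab.1 ab.2 : ℤ) - h ^ 2) ^ 2
      = h ^ 2 * (Q * (cnt (kp K k) t 1 1 : ℤ) - h ^ 2) ^ 2 := by
    rw [Finset.sum_congr rfl (g := fun _ => (Q * (cnt (kp K k) t 1 1 : ℤ) - h ^ 2) ^ 2)]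
    · rw [Finset.sum_const, Finset.card_product]
      simp only [nsmul_eq_mul]
      push_cast
      rw [← hh]; ring
    · intro ab hab
      rw [cnt_const t (mem_product.1 hab).1 (mem_product.1 hab).2]
  have h4 : h ^ 2 * (Q * (cnt (kp K k) t 1 1 : ℤ) - h ^ 2) ^ 2 ≤ h ^ 2 * Q ^ 3 := by
    rw [← h3]; linarith
  exact le_of_mul_le_mul_left h4 (by positivity)

end count

/-- every nonzero element of a large finite field is in many ways a sum of two nonzero `k`-th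
powers. -/
theorem many (k : ℕ) (hk : 1 ≤ k) (B : ℕ) : ∃ Q₀ : ℕ, ∀ (K : Type) [Field K] [Fintype K]
    [DecidableEq K], Q₀ ≤ Fintype.card K → ∀ t : K, t ≠ 0 →
      B < ((kp K k).filter (fun y => t - y ∈ kp K k)).card := by
  refine ⟨8 * k ^ 2 * (B + 1) + 64 * k ^ 4 + 2, fun K _ _ _ hQ t ht => ?_⟩
  have hc : cnt (kp K k) t 1 1 = ((kp K k).filter (fun y => t - y ∈ kp K k)).card := by
    unfold cnt
    refine Finset.card_bij (fun p _ => p.1) ?_ ?_ ?_
    · intro p hp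
      simp only [mem_filter, mem_product, one_mul] at hp ⊢
      refine ⟨hp.1.1, ?_⟩
      rw [← hp.2, add_sub_cancel_left]; exact hp.1.2
    · intro p hp p' hp' h
      simp only [mem_filter, mem_product, one_mul] at hp hp'
      refine Prod.ext h ?_
      have := hp.2.trans hp'.2.symm
      rw [h] at this
      exact add_left_cancel this
    · intro y hy
      simp only [mem_filter] at hy
      refine ⟨(y, t - y), ?_, rfl⟩
      simp only [mem_filter, mem_product, one_mul]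
      exact ⟨hy, by ring⟩
  rw [← hc]
  by_contra hcon
  push Not at hcon
  have h1 := moment_bound (K := K) k ht
  have h2 := card_kp (K := K) hk
  set Q : ℤ := ((Fintype.card K : ℕ) : ℤ) with hQdef
  set h : ℤ := (((kp K k).card : ℕ) : ℤ) with hh
  set n : ℤ := (cnt (kp K k) t 1 1 : ℤ) with hn
  have hQ' : 8 * (k : ℤ) ^ 2 * (B + 1) + 64 * (k : ℤ) ^ 4 + 2 ≤ Q := by
    rw [hQdef]; exact_mod_cast hQ
  have hk' : (1 : ℤ) ≤ k := by exact_mod_cast hk
  have hn' : n ≤ B := by rw [hn]; exact_mod_cast hcon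
  have hn0 : 0 ≤ n := by rw [hn]; positivity
  have h2' : Q - 1 ≤ k * h := by
    have : Fintype.card K ≤ k * (kp K k).card + 1 := by omega
    have h3 : (Q : ℤ) ≤ k * h + 1 := by rw [hQdef, hh]; exact_mod_cast this
    linarith
  have hB : (0 : ℤ) ≤ B := by positivity
  have hk2 : (1 : ℤ) ≤ (k : ℤ) ^ 2 := by nlinarith
  have hk4 : (1 : ℤ) ≤ (k : ℤ) ^ 4 := by nlinarith
  have hQ2 : 2 ≤ Q := by nlinarith
  -- 2 k h ≥ Q
  have a1 : Q ≤ 2 * (k * h) := by linarith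
  have a2 : Q ^ 2 ≤ 4 * k ^ 2 * h ^ 2 := by nlinarith
  -- 8 k^2 Q n ≤ Q^2
  have a3 : 8 * (k : ℤ) ^ 2 * (Q * n) ≤ Q ^ 2 := by
    have : 8 * (k : ℤ) ^ 2 * n ≤ Q := by nlinarith
    nlinarith
  have a4 : Q ^ 2 ≤ 8 * k ^ 2 * (h ^ 2 - Q * n) := by nlinarith
  have a5 : (Q ^ 2) ^ 2 ≤ (8 * (k : ℤ) ^ 2 * (h ^ 2 - Q * n)) ^ 2 := by
    apply pow_le_pow_left₀ (by positivity) a4
  have a6 : (8 * (k : ℤ) ^ 2 * (h ^ 2 - Q * n)) ^ 2 = 64 * k ^ 4 * (Q * n - h ^ 2) ^ 2 := by ring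
  rw [a6] at a5
  have a7 : Q ^ 4 ≤ 64 * k ^ 4 * Q ^ 3 := by
    calc Q ^ 4 = (Q ^ 2) ^ 2 := by ring
      _ ≤ _ := a5
      _ ≤ 64 * k ^ 4 * Q ^ 3 := by
        apply mul_le_mul_of_nonneg_left h1 (by positivity)
  have a8 : Q ≤ 64 * k ^ 4 := by
    have hQ3 : 0 < Q ^ 3 := by positivity
    have : Q ^ 3 * Q ≤ Q ^ 3 * (64 * k ^ 4) := by nlinarith
    exact le_of_mul_le_mul_left this hQ3
  nlinarith

end Pool.Agent.H709L
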