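import Pool.Agent.H709L.Blocks
import Pool.Agent.H709L.Count

set_option autoImplicit false

/-!
Large fields: every cyclic operator is a sum of two `k`-th powers.
-/

namespace Pool.Agent.H709L

open Polynomial

section lin

variable {F : Type} [Field F]

lemma cop_lin {a b : F} (h : a ≠ b) : IsCoprime (X - C a) (X - C b) :=
  isCoprime_X_sub_C_of_isUnit_sub (sub_ne_zero.2 h).isUnit

lemma cop_X {a : F} (h : a ≠ 0) : IsCoprime (X - C a) (X : F[X]) := by
  have := cop_lin h
  rwa [C_0, sub_zero] at this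

lemma cop_X1 {a : F} (h : a ≠ 1) : IsCoprime (X - C a) (X - 1 : F[X]) := by
  have := cop_lin h
  rwa [C_1] at this

lemma nextCoeff_h1 (c d : F) (M : ℕ) :
    ((X - C c) * ((X - C c) * (X - C d)) ^ M).nextCoeff = -c - M * (c + d) := by
  have m1 := monic_X_sub_C c
  have m2 := monic_X_sub_C d
  rw [m1.nextCoeff_mul ((m1.mul m2).pow M), (m1.mul m2).nextCoeff_pow, m1.nextCoeff_mul m2,
    nextCoeff_X_sub_C, nextCoeff_X_sub_C, nsmul_eq_mul]
  ring

lemma natDegree_h1 (c d : F) (M : ℕ) :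
    ((X - C c) * ((X - C c) * (X - C d)) ^ M).natDegree = 2 * M + 1 := by
  have m1 := monic_X_sub_C c
  have m2 := monic_X_sub_C d
  rw [m1.natDegree_mul ((m1.mul m2).pow M), (m1.mul m2).natDegree_pow, m1.natDegree_mul m2,
    natDegree_X_sub_C, natDegree_X_sub_C]
  ring

lemma monic_h1 (c d : F) (M : ℕ) : ((X - C c) * ((X - C c) * (X - C d)) ^ M).Monic :=
  (monic_X_sub_C c).mul (((monic_X_sub_C c).mul (monic_X_sub_C d)).pow M)

lemma nextCoeff_jordan (e : ℕ) : ((X - C (1 : F)) ^ e).nextCoeff = -(e : F) := by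
  rw [(monic_X_sub_C _).nextCoeff_pow, nextCoeff_X_sub_C, nsmul_eq_mul]; ring

lemma natDegree_jordan (e : ℕ) : ((X - C (1 : F)) ^ e).natDegree = e := by
  rw [(monic_X_sub_C _).natDegree_pow, natDegree_X_sub_C, mul_one]

lemma mx_linear {h : F[X]} (hm : h.Monic) (hd : h.natDegree = 1) :
    mx h = (-h.coeff 0) • (1 : Module.End F (AdjoinRoot h)) := by
  have h1 : h = X + C (h.coeff 0) := hm.eq_X_add_C hd
  have h2 : AdjoinRoot.root h = algebraMap F (AdjoinRoot h) (-h.coeff 0) := by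
    have h3 : AdjoinRoot.mk h (X + C (h.coeff 0)) = 0 := by
      rw [← h1]; exact AdjoinRoot.mk_self
    rw [map_add, AdjoinRoot.mk_X, AdjoinRoot.mk_C] at h3
    rw [map_neg]
    exact eq_neg_of_add_eq_zero_left h3
  rw [mx, h2, AlgHom.commutes, Algebra.algebraMap_eq_smul_one]

lemma subsingleton_adj {h : F[X]} (hm : h.Monic) (hd : h.natDegree = 0) :
    Subsingleton (AdjoinRoot h) := by
  have := fd_adj hm
  exact Module.finrank_zero_iff.1 ((finrank_adj hm).trans hd)

instance : Subsingleton (degreeLT F 0) := by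
  refine ⟨fun a b => Subtype.ext ?_⟩
  have ha := mem_degreeLT.1 a.2
  have hb := mem_degreeLT.1 b.2
  have h0 : ∀ p : F[X], p.degree < ((0 : ℕ) : WithBot ℕ) → p = 0 := by
    intro p hp
    by_contra h
    have := (natDegree_lt_iff_degree_lt h).2 hp
    omega
  rw [h0 _ ha, h0 _ hb]

end lin

theorem large (k : ℕ) (hk : 1 ≤ k) : ∃ Q₀ : ℕ, ∀ (F : Type) [Field F] [Fintype F],
    Q₀ ≤ Fintype.card F → ∀ h : F[X], h.Monic → Sol k (mx h) := by
  classical
  obtain ⟨Q₀, hQ₀⟩ := many k hk 4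
  refine ⟨Q₀ + 4, fun F _ _ hF h hm => ?_⟩
  have hbig : ∀ t : F, t ≠ 0 → 4 < ((kp F k).filter (fun y => t - y ∈ kp F k)).card :=
    fun t ht => hQ₀ F (by omega) t ht
  have avoid : ∀ t : F, t ≠ 0 → ∀ S : Finset F, S.card ≤ 4 → ∃ α β : F, α ^ k + β ^ k = t ∧
      α ^ k ≠ 0 ∧ β ^ k ≠ 0 ∧ α ^ k ∉ S := by
    intro t ht S hS
    obtain ⟨y, hy, hyS⟩ := Finset.exists_mem_notMem_of_card_lt_card (lt_of_le_of_lt hS (hbig t ht))
    rw [Finset.mem_filter] at hy
    obtain ⟨α, -, hα⟩ := mem_kp.1 hy.1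
    obtain ⟨β, -, hβ⟩ := mem_kp.1 hy.2
    refine ⟨α, β, by rw [hα, hβ]; ring, ?_, ?_, by rw [hα]; exact hyS⟩
    · rw [hα]; exact kp_ne_zero hy.1
    · rw [hβ]; exact kp_ne_zero hy.2
  rcases Nat.lt_or_ge h.natDegree 1 with h0 | h0
  · have := subsingleton_adj hm (by omega : h.natDegree = 0)
    exact (solP_subsingleton k (mx h) 1 1).sol
  rcases Nat.lt_or_ge h.natDegree 2 with h1 | h1
  · rw [mx_linear hm (by omega)]
    set z : F := -h.coeff 0 with hz
    by_cases hz0 : z = 0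
    · rw [hz0, zero_smul]
      exact (SolP.zero hk).sol
    · obtain ⟨α, β, hab, -⟩ := avoid z hz0 ∅ (by simp)
      rw [← hab]
      exact (solP_scalar k α β).sol
  · obtain ⟨e, he⟩ : ∃ e, h.natDegree = e + 2 := ⟨h.natDegree - 2, by omega⟩
    set τ : F := -h.nextCoeff - e with hτ
    obtain ⟨z2, -, hz2⟩ := Finset.exists_mem_notMem_of_card_lt_card
      (s := ({0, 1, τ} : Finset F)) (t := Finset.univ) (by
        have := Finset.card_le_three (a := (0 : F)) (b := 1) (c := τ)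
        rw [Finset.card_univ]; omega)
    simp only [Finset.mem_insert, Finset.mem_singleton, not_or] at hz2
    obtain ⟨hz20, hz21, hz2τ⟩ := hz2
    set z1 : F := τ - z2 with hz1
    have hz10 : z1 ≠ 0 := by rw [hz1]; exact sub_ne_zero.2 (Ne.symm hz2τ)
    obtain ⟨α1, β1, hab1, ha10, hb10, hS1⟩ := avoid z1 hz10 {1, z1 - 1}
      (Finset.card_le_two.trans (by norm_num))
    obtain ⟨α2, β2, hab2, ha20, hb20, hS2⟩ := avoid z2 hz20
      {1, z2 - 1, α1 ^ k, z2 - β1 ^ k} Finset.card_le_four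
    simp only [Finset.mem_insert, Finset.mem_singleton, not_or] at hS1 hS2
    have hb11 : β1 ^ k ≠ 1 := by
      intro hh; apply hS1.2; rw [← hab1, hh]; ring
    have hb21 : β2 ^ k ≠ 1 := by
      intro hh; apply hS2.2.1; rw [← hab2, hh]; ring
    have hbb : β1 ^ k ≠ β2 ^ k := by
      intro hh; apply hS2.2.2.2; rw [← hab2, hh]; ring
    -- the second polynomial
    set g : F[X] := (X - C (1 : F)) ^ e with hg
    have gm : g.Monic := (monic_X_sub_C _).pow e
    set h2 : F[X] := (X - C z2) * g with hh2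
    have h2m : h2.Monic := (monic_X_sub_C _).mul gm
    have h2d : h2.natDegree = e + 1 := by
      rw [hh2, (monic_X_sub_C _).natDegree_mul gm, natDegree_X_sub_C, hg, natDegree_jordan]; ring
    have h2n : h2.nextCoeff = -z2 - e := by
      rw [hh2, (monic_X_sub_C _).nextCoeff_mul gm, nextCoeff_X_sub_C, hg, nextCoeff_jordan]; ring
    have hC := nf h h2 hm h2m z1 0 1 le_rfl (by rw [he, h2d]; ring) (by omega) (by omega) (by
      have hprod : ((X - C z1) * ((X - C z1) * (X - C (0 : F))) ^ (1 - 1) * h2).Monic :=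
        (monic_h1 z1 0 0).mul h2m
      refine deg_sub_lt hprod hm (by omega) ?_ rfl ?_
      · rw [(monic_h1 z1 0 (1 - 1)).natDegree_mul h2m, natDegree_h1, h2d, he]; omega
      · rw [(monic_h1 z1 0 (1 - 1)).nextCoeff_mul h2m, nextCoeff_h1, h2n]
        simp only [hz1, hτ]
        push_cast; ring)
    have s1 : SolP k (z1 • (1 : Module.End F (degreeLT F 1))) (X - C (α1 ^ k))
        (X - C (β1 ^ k)) := by
      rw [← hab1]; exact solP_scalar k α1 β1
    have s2 : SolP k (z2 • (1 : Module.End F F)) (X - C (α2 ^ k)) (X - C (β2 ^ k)) := by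
      rw [← hab2]; exact solP_scalar k α2 β2
    have s3 : SolP k (mx g) (X * (X - 1)) (X * (X - 1)) := solP_jordan hk e
    have s4 := (Cmp.direct (z2 • (1 : Module.End F F)) (mx g)).solP s2 s3
      ((cop_X ha20).mul_right (cop_X1 hS2.1)) ((cop_X hb20).mul_right (cop_X1 hb21))
    have s5 := s4.sim (sim_crt gm (coprime_jordan hz21 e)).symm
    have : Subsingleton (degreeLT F (1 - 1)) := inferInstanceAs (Subsingleton (degreeLT F 0))
    have s6 := (solP_subsingleton k ((0 : F) • (1 : Module.End F (degreeLT F (1 - 1)))) _ _).prodMap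
      s5
    have cP : IsCoprime (X - C (α1 ^ k)) ((X - C (α2 ^ k)) * (X * (X - 1))) :=
      (cop_lin (Ne.symm hS2.2.2.1)).mul_right ((cop_X ha10).mul_right (cop_X1 hS1.1))
    have cQ : IsCoprime (X - C (β1 ^ k)) ((X - C (β2 ^ k)) * (X * (X - 1))) :=
      (cop_lin hbb).mul_right ((cop_X hb10).mul_right (cop_X1 hb11))
    exact (hC.solP s1 s6 cP cQ).sol

end Pool.Agent.H709L
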