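import Pool.Agent.H709L.Abs
import Pool.Agent.H709L.Large

set_option autoImplicit false

/-!
Absorbing a bounded operator into a highly repeated block or into a large cyclic block.
-/

namespace Pool.Agent.H709L

open Polynomial

section basic

variable {F : Type} [Field F]

lemma Sim.comm {V W : Type} [AddCommGroup V] [Module F V] [AddCommGroup W] [Module F W]
    (A : Module.End F V) (B : Module.End F W) :
    Sim (LinearMap.prodMap A B : Module.End F (V × W))
      (LinearMap.prodMap B A : Module.End F (W × V)) :=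
  ⟨LinearEquiv.prodComm F V W, fun v => rfl⟩

lemma solP_zero' {V : Type} [AddCommGroup V] [Module F V] {k : ℕ} (hk : 1 ≤ k) :
    SolP k ((0 : F) • (1 : Module.End F V)) (X * (X - 1)) (X * (X - 1)) := by
  have := SolP.idem (V := V) (F := F) hk (P := 0) (Q := 0) (by simp) (by simp)
  rw [zero_smul]
  rwa [add_zero] at this

lemma piMap_scalar {V : Type} [AddCommGroup V] [Module F V] (α : Type) (c : F) :
    piMap α (c • (1 : Module.End F V)) = c • (1 : Module.End F (α → V)) := by
  apply LinearMap.ext; intro f; ext i; simp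

/-- a cyclic operator of degree at least two, with a nonzero scalar in the corner. -/
lemma block2 {k : ℕ} (hk : 1 ≤ k) {h : F[X]} (hm : h.Monic) (hd : 2 ≤ h.natDegree) :
    ∃ c : F, c ≠ 0 ∧ ∃ (W : Type) (_ : AddCommGroup W) (_ : Module F W) (B : Module.End F W),
      Cmp (mx h) (c • (1 : Module.End F (degreeLT F 1))) B ∧
      SolP k B (X * (X - 1)) (X * (X - 1)) := by
  obtain ⟨e, he⟩ : ∃ e, h.natDegree = e + 2 := ⟨h.natDegree - 2, by omega⟩
  have key : ∀ (c : F) (h2 : F[X]), h2.Monic → h2.natDegree = e + 1 →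
      -c + h2.nextCoeff = h.nextCoeff → SolP k (mx h2) (X * (X - 1)) (X * (X - 1)) →
      ∃ (W : Type) (_ : AddCommGroup W) (_ : Module F W) (B : Module.End F W),
      Cmp (mx h) (c • (1 : Module.End F (degreeLT F 1))) B ∧
      SolP k B (X * (X - 1)) (X * (X - 1)) := by
    intro c h2 h2m h2d h2n hS
    have hC := nf h h2 hm h2m c 0 1 le_rfl (by rw [he, h2d]; ring) (by omega) (by omega) (by
      have hprod : ((X - C c) * ((X - C c) * (X - C (0 : F))) ^ (1 - 1) * h2).Monic :=
        (monic_h1 c 0 0).mul h2m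
      refine deg_sub_lt hprod hm (by omega) ?_ rfl ?_
      · rw [(monic_h1 c 0 (1 - 1)).natDegree_mul h2m, natDegree_h1, h2d, he]; omega
      · rw [(monic_h1 c 0 (1 - 1)).nextCoeff_mul h2m, nextCoeff_h1, ← h2n]
        push_cast; ring)
    have : Subsingleton (degreeLT F (1 - 1)) := inferInstanceAs (Subsingleton (degreeLT F 0))
    exact ⟨_, _, _, _, hC, (solP_subsingleton k _ _ _).prodMap hS⟩
  have gm : ∀ j, ((X - C (1 : F)) ^ j).Monic := fun j => (monic_X_sub_C _).pow j
  by_cases h0 : -h.nextCoeff - (e + 1 : ℕ) = 0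
  · -- use X * (X - 1) ^ e
    refine ⟨-h.nextCoeff - e, ?_, key _ ((X - C 0) * (X - C (1 : F)) ^ e)
      ((monic_X_sub_C _).mul (gm e)) ?_ ?_ ?_⟩
    · intro h1
      push_cast at h0
      have : (1 : F) = 0 := by linear_combination h1 - h0
      exact one_ne_zero this
    · rw [(monic_X_sub_C _).natDegree_mul (gm e), natDegree_X_sub_C, natDegree_jordan]; ring
    · rw [(monic_X_sub_C _).nextCoeff_mul (gm e), nextCoeff_X_sub_C, nextCoeff_jordan]; ring
    · exact ((solP_zero' hk).prodMap (solP_jordan hk e)).sim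
        (sim_crt (gm e) (coprime_jordan (zero_ne_one) e)).symm
  · refine ⟨_, h0, key _ ((X - C (1 : F)) ^ (e + 1)) (gm _) (natDegree_jordan _) ?_
      (solP_jordan hk _)⟩
    rw [nextCoeff_jordan]; ring

end basic

/-- absorbing into a highly repeated block. -/
theorem absRep (k : ℕ) (hk : 1 ≤ k) (F : Type) [Field F] [Fintype F] (b : ℕ) :
    ∃ M₀ : ℕ, ∀ (V : Type) [AddCommGroup V] [Module F V] [FiniteDimensional F V],
      Module.finrank F V ≤ b → ∀ (A : Module.End F V) (h : F[X]), h.Monic → 1 ≤ h.natDegree →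
      ∀ (α : Type) [Fintype α], M₀ ≤ Fintype.card α →
      Sol k (LinearMap.prodMap A (piMap α (mx h)) :
        Module.End F (V × (α → AdjoinRoot h))) := by
  choose M hM using fun b => absScalar k hk F b 1
  refine ⟨∑ j ∈ Finset.range (b + 1), M j, fun V _ _ _ hV A h hm hd α _ hα => ?_⟩
  have hle : M (Module.finrank F V) ≤ Fintype.card α :=
    (Finset.single_le_sum (f := M) (fun _ _ => Nat.zero_le _)
      (Finset.mem_range.2 (by omega))).trans hα
  have := fd_adj hm
  rcases Nat.lt_or_ge h.natDegree 2 with h1 | h1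
  · rw [mx_linear hm (by omega), piMap_scalar]
    obtain ⟨P, Q, hS, -⟩ := hM (Module.finrank F V) (Fintype.card α) hle V (α → AdjoinRoot h) rfl
      (by rw [Module.finrank_pi_fintype, Finset.sum_const, finrank_adj hm, Finset.card_univ,
            (by omega : h.natDegree = 1)]; simp) A (-h.coeff 0)
    exact hS.sol
  · obtain ⟨c, hc, W, _, _, B, hC, hS⟩ := block2 hk hm h1
    have hC2 := (hC.pi α).add A
    rw [piMap_scalar] at hC2
    obtain ⟨P, Q, hSc, -, -, hcop⟩ := hM (Module.finrank F V) (Fintype.card α) hle V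
      (α → degreeLT F 1) rfl
      (by rw [Module.finrank_pi_fintype, Finset.sum_const, finrank_dlt, Finset.card_univ]; simp) A c
    exact (hC2.solP hSc (hS.pi α) (hcop hc).1 (hcop hc).2).sol

/-- absorbing into a large cyclic block. -/
theorem absCyc (k : ℕ) (hk : 1 ≤ k) (F : Type) [Field F] [Fintype F] (b : ℕ) :
    ∃ N₀ : ℕ, ∀ (V : Type) [AddCommGroup V] [Module F V] [FiniteDimensional F V],
      Module.finrank F V ≤ b → ∀ (A : Module.End F V) (h : F[X]), h.Monic → N₀ ≤ h.natDegree →
      Sol k (LinearMap.prodMap A (mx h) : Module.End F (V × AdjoinRoot h)) := by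
  obtain ⟨m, -, hm2, hT2⟩ := T2 k hk F 1
  choose Mf hMf using fun b => absScalar k hk F b m
  set M : ℕ := ∑ j ∈ Finset.range (b + 1), Mf j + m + 1 with hMdef
  refine ⟨4 * M + 2, fun V _ _ _ hV A h hm hd => ?_⟩
  have hle : Mf (Module.finrank F V) ≤ M := by
    have := Finset.single_le_sum (f := Mf) (fun _ _ => Nat.zero_le _)
      (Finset.mem_range.2 (by omega : Module.finrank F V < b + 1))
    omega
  obtain ⟨e, he⟩ : ∃ e, h.natDegree = (2 * M - 1) + (e + 1) := ⟨h.natDegree - 2 * M, by omega⟩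
  set b' : F := -h.nextCoeff - M - e with hb'
  have gm : ∀ j, ((X - C (1 : F)) ^ j).Monic := fun j => (monic_X_sub_C _).pow j
  set h2 : F[X] := (X - C b') * (X - C (1 : F)) ^ e with hh2
  have h2m : h2.Monic := (monic_X_sub_C _).mul (gm e)
  have h2d : h2.natDegree = e + 1 := by
    rw [hh2, (monic_X_sub_C _).natDegree_mul (gm e), natDegree_X_sub_C, natDegree_jordan]; ring
  have h2n : h2.nextCoeff = -b' - e := by
    rw [hh2, (monic_X_sub_C _).nextCoeff_mul (gm e), nextCoeff_X_sub_C, nextCoeff_jordan]; ring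
  obtain ⟨M', hM'⟩ : ∃ M', M = M' + 1 := ⟨M - 1, by omega⟩
  have hC := nf h h2 hm h2m 1 0 M (by omega) (by omega) (by omega) (by omega) (by
    have hprod : ((X - C 1) * ((X - C 1) * (X - C (0 : F))) ^ (M - 1) * h2).Monic :=
      (monic_h1 1 0 _).mul h2m
    refine deg_sub_lt hprod hm (by omega) ?_ rfl ?_
    · rw [(monic_h1 1 0 (M - 1)).natDegree_mul h2m, natDegree_h1, h2d, he]; omega
    · rw [(monic_h1 1 0 (M - 1)).nextCoeff_mul h2m, nextCoeff_h1, h2n, hb', hM']
      push_cast; ring)
  -- the second block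
  have hD : ∃ P' Q' : F[X], SolP k (LinearMap.prodMap ((0 : F) • (1 : Module.End F
      (degreeLT F (M - 1)))) (mx h2) : Module.End F (degreeLT F (M - 1) × AdjoinRoot h2)) P' Q' ∧
      (∀ P, Away m P → IsCoprime P (X * (X - 1)) → IsCoprime P P') ∧
      (∀ P, Away m P → IsCoprime P (X * (X - 1)) → IsCoprime P Q') := by
    by_cases hb1 : b' = 1
    · refine ⟨X * (X - 1), X * (X - 1), (solP_zero' hk).prodMap ?_, fun P _ h => h,
        fun P _ h => h⟩
      rw [hh2, hb1, ← pow_succ']
      exact solP_jordan hk _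
    have hsim := sim_crt (gm e) (coprime_jordan hb1 e)
    by_cases hb0 : b' = 0
    · refine ⟨X * (X - 1), X * (X - 1), (solP_zero' hk).prodMap ?_, fun P _ h => h,
        fun P _ h => h⟩
      refine SolP.sim hsim.symm (SolP.prodMap ?_ (solP_jordan hk e))
      rw [hb0]; exact solP_zero' hk
    · obtain ⟨P1, Q1, hP1, hQ1, hP1d, hQ1d, hS1⟩ := hT2 0 b' hb0
      have hZ : Cmp ((0 : F) • (1 : Module.End F (degreeLT F (M - 1))))
          ((0 : F) • (1 : Module.End F (Fin (m - 1) → F)))
          ((0 : F) • (1 : Module.End F (Fin (M - m) → F))) := by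
        refine (Cmp.direct _ _).sim ?_
        rw [scalar_prod]
        refine sim_scalar 0 ?_
        rw [Module.finrank_prod, Module.finrank_fin_fun, Module.finrank_fin_fun, finrank_dlt]
        omega
      have hC1 := (Cmp.direct (b' • (1 : Module.End F F)) (mx ((X - C (1 : F)) ^ e))).prodProd hZ
      have hsim2 : Sim (LinearMap.prodMap (LinearMap.prodMap (b' • (1 : Module.End F F))
          (mx ((X - C (1 : F)) ^ e)) : Module.End F (F × AdjoinRoot ((X - C (1 : F)) ^ e)))
          ((0 : F) • (1 : Module.End F (degreeLT F (M - 1)))) : Module.End F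
            ((F × AdjoinRoot ((X - C (1 : F)) ^ e)) × degreeLT F (M - 1)))
          (LinearMap.prodMap ((0 : F) • (1 : Module.End F (degreeLT F (M - 1)))) (mx h2) :
            Module.End F (degreeLT F (M - 1) × AdjoinRoot h2)) :=
        (Sim.comm _ _).trans ((Sim.refl _).prodMap hsim.symm)
      have s1 := hS1 (Fin (m - 1) → F) (Module.finrank_fin_fun F)
      have s2 : SolP k (LinearMap.prodMap (mx ((X - C (1 : F)) ^ e))
          ((0 : F) • (1 : Module.End F (Fin (M - m) → F))) : Module.End F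
            (AdjoinRoot ((X - C (1 : F)) ^ e) × (Fin (M - m) → F))) (X * (X - 1)) (X * (X - 1)) :=
        (solP_jordan hk e).prodMap (solP_zero' hk)
      have s3 := hC1.solP s1 s2 (cop_XX hP1 (by omega)) (cop_XX hQ1 (by omega))
      refine ⟨_, _, s3.sim hsim2, fun P hP hP' => ?_, fun P hP hP' => ?_⟩
      · exact (hP P1 hP1 (by omega) (by omega)).mul_right hP'
      · exact (hP Q1 hQ1 (by omega) (by omega)).mul_right hP'
  obtain ⟨P', Q', hS', hP', hQ'⟩ := hD
  obtain ⟨P, Q, hSc, hPA, hQA, hcop⟩ := hMf (Module.finrank F V) M hle V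
    (degreeLT F M) rfl (finrank_dlt M) A 1
  exact ((hC.add A).solP hSc hS' (hP' P hPA (hcop one_ne_zero).1)
    (hQ' Q hQA (hcop one_ne_zero).2)).sol

end Pool.Agent.H709L
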