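import Pool.Agent.H709L.NF

set_option autoImplicit false

/-!
Cyclic blocks: unipotent Jordan blocks as sums of two idempotents, splitting off a linear factor.
-/

namespace Pool.Agent.H709L

open Polynomial

section blocks

variable {F : Type} [Field F]

lemma solP_subsingleton {V : Type} [AddCommGroup V] [Module F V] [Subsingleton V] (k : ℕ)
    (A : Module.End F V) (P Q : F[X]) : SolP k A P Q := by
  have : Subsingleton (Module.End F V) := ⟨fun a b => by ext x; exact Subsingleton.elim _ _⟩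
  exact ⟨0, 0, Subsingleton.elim _ _, ⟨0, Subsingleton.elim _ _⟩, ⟨0, Subsingleton.elim _ _⟩,
    Subsingleton.elim _ _, Subsingleton.elim _ _⟩

/-- a scalar that is a sum of two powers in the field itself. -/
lemma solP_scalar {V : Type} [AddCommGroup V] [Module F V] (k : ℕ) (α β : F) :
    SolP k ((α ^ k + β ^ k) • (1 : Module.End F V)) (X - C (α ^ k)) (X - C (β ^ k)) := by
  have h1 : ∀ a : F, (a • (1 : Module.End F V)) ^ k = (a ^ k) • (1 : Module.End F V) := by
    intro a; rw [_root_.smul_pow, one_pow]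
  have h2 : ∀ a : F, aeval (a • (1 : Module.End F V)) (X - C a) = 0 := by
    intro a
    rw [map_sub, aeval_X, aeval_C, Algebra.algebraMap_eq_smul_one, sub_self]
  exact ⟨(α ^ k) • 1, (β ^ k) • 1, add_smul _ _ _, ⟨α • 1, h1 α⟩, ⟨β • 1, h1 β⟩, h2 _, h2 _⟩

lemma deg_sub_lt {p q : F[X]} (hp : p.Monic) (hq : q.Monic) {N : ℕ} (hN : 1 ≤ N)
    (hpd : p.natDegree = N) (hqd : q.natDegree = N) (hc : p.nextCoeff = q.nextCoeff) :
    (p - q).degree < ((N - 1 : ℕ) : WithBot ℕ) := by
  rw [degree_lt_iff_coeff_zero]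
  intro n hn
  rw [coeff_sub]
  rcases Nat.lt_trichotomy n N with h | h | h
  · have : n = N - 1 := by omega
    rw [nextCoeff_of_natDegree_pos (by omega), nextCoeff_of_natDegree_pos (by omega), hpd,
      hqd] at hc
    rw [this, hc, sub_self]
  · rw [h]
    have h1 : p.coeff N = 1 := by rw [← hpd]; exact hp.coeff_natDegree
    have h2 : q.coeff N = 1 := by rw [← hqd]; exact hq.coeff_natDegree
    rw [h1, h2, sub_self]
  · rw [coeff_eq_zero_of_natDegree_lt (by omega), coeff_eq_zero_of_natDegree_lt (by omega),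
      sub_self]

lemma aeval_root (h p : F[X]) : aeval (AdjoinRoot.root h) p = AdjoinRoot.mk h p := by
  rw [AdjoinRoot.aeval_eq]

lemma sim_jordan (e : ℕ) : Sim (mx ((X - C (1 : F)) ^ e)) (1 + mx (X ^ e : F[X])) := by
  have hm1 : ((X - C (1 : F)) ^ e).Monic := (monic_X_sub_C _).pow e
  have hm2 : (X ^ e : F[X]).Monic := monic_X_pow e
  have hz : eval₂ ((Algebra.ofId F (AdjoinRoot (X ^ e : F[X]))) : F →+* AdjoinRoot (X ^ e : F[X]))
      (AdjoinRoot.root (X ^ e : F[X]) + 1) ((X - C (1 : F)) ^ e) = 0 := by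
    rw [eval₂_pow, eval₂_sub, eval₂_X, eval₂_C, map_one, add_sub_cancel_right,
      ← AdjoinRoot.mk_X, ← map_pow, AdjoinRoot.mk_self]
  let φ := AdjoinRoot.liftAlgHom ((X - C (1 : F)) ^ e) (Algebra.ofId F (AdjoinRoot (X ^ e : F[X])))
    (AdjoinRoot.root (X ^ e : F[X]) + 1) hz
  have hφ : ∀ p, φ (AdjoinRoot.mk _ p) = aeval (AdjoinRoot.root (X ^ e : F[X]) + 1) p :=
    fun p => rfl
  have hsurj : Function.Surjective φ.toLinearMap := by
    intro y
    obtain ⟨p, rfl⟩ := AdjoinRoot.mk_surjective y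
    refine ⟨AdjoinRoot.mk _ (p.comp (X - C 1)), ?_⟩
    rw [AlgHom.toLinearMap_apply, hφ, aeval_comp, map_sub, aeval_X, aeval_C, map_one,
      add_sub_cancel_right, aeval_root]
  have := fd_adj hm1
  have := fd_adj hm2
  have hfr : Module.finrank F (AdjoinRoot ((X - C (1 : F)) ^ e))
      = Module.finrank F (AdjoinRoot (X ^ e : F[X])) := by
    rw [finrank_adj hm1, finrank_adj hm2, (monic_X_sub_C _).natDegree_pow, natDegree_X_sub_C,
      natDegree_X_pow, mul_one]
  have hinj : Function.Injective φ.toLinearMap :=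
    (LinearMap.injective_iff_surjective_of_finrank_eq_finrank hfr).2 hsurj
  refine ⟨LinearEquiv.ofBijective φ.toLinearMap ⟨hinj, hsurj⟩, fun v => ?_⟩
  rw [LinearEquiv.ofBijective_apply, LinearEquiv.ofBijective_apply, AlgHom.toLinearMap_apply,
    AlgHom.toLinearMap_apply]
  show φ (AdjoinRoot.root _ * v) = φ v + AdjoinRoot.root (X ^ e : F[X]) * φ v
  rw [map_mul]
  have : φ (AdjoinRoot.root _) = AdjoinRoot.root (X ^ e : F[X]) + 1 := by
    rw [← AdjoinRoot.mk_X, hφ, aeval_X]
  rw [this]; ring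

lemma solP_nilp {k : ℕ} (hk : 1 ≤ k) (e : ℕ) :
    SolP k (1 + mx (X ^ e : F[X])) (X * (X - 1)) (X * (X - 1)) := by
  set R := AdjoinRoot (X ^ e : F[X]) with hR
  set ξ : R := AdjoinRoot.root (X ^ e : F[X]) with hξ
  have hm2 : (X ^ e : F[X]).Monic := monic_X_pow e
  let pb := AdjoinRoot.powerBasis' hm2
  have hdim : pb.dim = e := by
    show (X ^ e : F[X]).natDegree = e
    exact natDegree_X_pow e
  have hz : ∀ j, e ≤ j → ξ ^ j = 0 := by
    intro j hj
    have : ξ ^ e = 0 := by rw [hξ, ← AdjoinRoot.mk_X, ← map_pow, AdjoinRoot.mk_self]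
    rw [← Nat.add_sub_cancel' hj, pow_add, this, zero_mul]
  have hb : ∀ i : Fin pb.dim, pb.basis i = ξ ^ (i : ℕ) := fun i => pb.basis_eq_pow i
  let ε : Module.End F R := pb.basis.constr F (fun i => if Even (i : ℕ) then pb.basis i else 0)
  have hε : ∀ j : ℕ, ε (ξ ^ j) = if Even j then ξ ^ j else 0 := by
    intro j
    by_cases hj : j < e
    · have h1 := pb.basis.constr_basis F (fun i => if Even (i : ℕ) then pb.basis i else 0)
        ⟨j, by rw [hdim]; exact hj⟩
      rw [hb] at h1
      exact h1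
    · rw [hz j (not_lt.1 hj), map_zero]; simp
  set N : Module.End F R := mx (X ^ e : F[X]) with hN
  have hNj : ∀ j : ℕ, N (ξ ^ j) = ξ ^ (j + 1) := fun j => (pow_succ' ξ j).symm
  have c1 : ε * ε = ε := by
    refine pb.basis.ext fun i => ?_
    rw [hb, Module.End.mul_apply, hε]
    split_ifs with h
    · rw [hε, if_pos h]
    · rw [map_zero]
  have c2 : ε * N = N - N * ε := by
    refine pb.basis.ext fun i => ?_
    rw [hb, Module.End.mul_apply, hNj, hε, LinearMap.sub_apply, hNj, Module.End.mul_apply, hε]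
    by_cases h : Even (i : ℕ)
    · have h' : ¬ Even ((i : ℕ) + 1) := by rw [Nat.even_add_one]; exact not_not.2 h
      rw [if_neg h', if_pos h, hNj, sub_self]
    · have h' : Even ((i : ℕ) + 1) := by rw [Nat.even_add_one]; exact h
      rw [if_pos h', if_neg h, map_zero, sub_zero]
  have hsum : (1 + N : Module.End F R) = (ε + N * (1 - ε)) + ((1 - ε) + N * ε) := by
    rw [mul_sub, mul_one]; abel
  rw [hsum]
  have d1 : ε * (1 - ε) = 0 := by rw [mul_sub, mul_one, c1, sub_self]
  have d2 : (1 - ε) * ε = 0 := by rw [sub_mul, one_mul, c1, sub_self]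
  have d3 : (1 - ε) * (1 - ε) = 1 - ε := by rw [mul_sub, mul_one, d2, sub_zero]
  have d4 : ε * N = N * (1 - ε) := by rw [c2, mul_sub, mul_one]
  have d5 : (1 - ε) * N = N * ε := by rw [sub_mul, one_mul, c2, sub_sub_cancel]
  apply SolP.idem hk
  · calc (ε + N * (1 - ε)) * (ε + N * (1 - ε))
        = ε * ε + (ε * N) * (1 - ε) + N * ((1 - ε) * ε) + N * (((1 - ε) * N) * (1 - ε)) := by
          noncomm_ring
      _ = ε + N * (1 - ε) := by
          rw [c1, d4, d2, d5, mul_zero, mul_assoc N ε, d1, mul_zero, mul_zero, mul_assoc, d3,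
            add_zero, add_zero]
  · calc ((1 - ε) + N * ε) * ((1 - ε) + N * ε)
        = (1 - ε) * (1 - ε) + ((1 - ε) * N) * ε + N * (ε * (1 - ε)) + N * ((ε * N) * ε) := by
          noncomm_ring
      _ = (1 - ε) + N * ε := by
          rw [d3, d5, d1, d4, mul_zero, mul_assoc N (1 - ε) ε, d2, mul_zero, mul_zero, mul_assoc,
            c1, add_zero, add_zero]

/-- a unipotent Jordan block. -/
theorem solP_jordan {k : ℕ} (hk : 1 ≤ k) (e : ℕ) :
    SolP k (mx ((X - C (1 : F)) ^ e)) (X * (X - 1)) (X * (X - 1)) :=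
  (solP_nilp hk e).sim (sim_jordan e).symm

/-- splitting off a linear factor. -/
theorem sim_crt {z : F} {g : F[X]} (hg : g.Monic) (cop : IsCoprime (X - C z) g) :
    Sim (mx ((X - C z) * g))
      (LinearMap.prodMap (z • (1 : Module.End F F)) (mx g) : Module.End F (F × AdjoinRoot g)) := by
  have hm1 : ((X - C z) * g).Monic := (monic_X_sub_C z).mul hg
  have haev : ∀ p : F[X], aeval ((z, AdjoinRoot.root g) : F × AdjoinRoot g) p
      = (eval z p, AdjoinRoot.mk g p) := by
    intro p
    refine Prod.ext ?_ ?_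
    · have := aeval_algHom_apply (AlgHom.fst F F (AdjoinRoot g))
        ((z, AdjoinRoot.root g) : F × AdjoinRoot g) p
      have h2 : (AlgHom.fst F F (AdjoinRoot g)) ((z, AdjoinRoot.root g) : F × AdjoinRoot g) = z :=
        rfl
      rw [h2] at this
      exact this.symm
    · have := aeval_algHom_apply (AlgHom.snd F F (AdjoinRoot g))
        ((z, AdjoinRoot.root g) : F × AdjoinRoot g) p
      have h2 : (AlgHom.snd F F (AdjoinRoot g)) ((z, AdjoinRoot.root g) : F × AdjoinRoot g)
        = AdjoinRoot.root g := rfl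
      rw [h2, aeval_root] at this
      exact this.symm
  have hz : eval₂ ((Algebra.ofId F (F × AdjoinRoot g)) : F →+* F × AdjoinRoot g)
      ((z, AdjoinRoot.root g) : F × AdjoinRoot g) ((X - C z) * g) = 0 := by
    have h3 : AdjoinRoot.mk g ((X - C z) * g) = 0 := by
      rw [AdjoinRoot.mk_eq_zero]; exact dvd_mul_left _ _
    have h4 := haev ((X - C z) * g)
    rw [h3, eval_mul, eval_sub, eval_X, eval_C, sub_self, zero_mul] at h4
    exact h4
  let φ := AdjoinRoot.liftAlgHom ((X - C z) * g) (Algebra.ofId F (F × AdjoinRoot g))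
    ((z, AdjoinRoot.root g) : F × AdjoinRoot g) hz
  have hφ : ∀ p, φ (AdjoinRoot.mk _ p) = (eval z p, AdjoinRoot.mk g p) := fun p => haev p
  have hinj : Function.Injective φ.toLinearMap := by
    rw [injective_iff_map_eq_zero]
    intro y hy
    obtain ⟨p, rfl⟩ := AdjoinRoot.mk_surjective y
    rw [AlgHom.toLinearMap_apply, hφ] at hy
    have h1 : eval z p = 0 := congrArg Prod.fst hy
    have h2 : AdjoinRoot.mk g p = 0 := congrArg Prod.snd hy
    rw [AdjoinRoot.mk_eq_zero] at h2 ⊢
    exact cop.mul_dvd (dvd_iff_isRoot.2 h1) h2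
  have := fd_adj hm1
  have := fd_adj hg
  have hfr : Module.finrank F (AdjoinRoot ((X - C z) * g))
      = Module.finrank F (F × AdjoinRoot g) := by
    rw [finrank_adj hm1, Module.finrank_prod, Module.finrank_self, finrank_adj hg,
      (monic_X_sub_C z).natDegree_mul hg, natDegree_X_sub_C]
  refine ⟨φ.toLinearMap.linearEquivOfInjective hinj hfr, fun v => ?_⟩
  rw [LinearMap.linearEquivOfInjective_apply, LinearMap.linearEquivOfInjective_apply,
    AlgHom.toLinearMap_apply, AlgHom.toLinearMap_apply]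
  show φ (AdjoinRoot.root _ * v) = (z * (φ v).1, AdjoinRoot.root g * (φ v).2)
  rw [map_mul]
  have : φ (AdjoinRoot.root _) = (z, AdjoinRoot.root g) := by
    rw [← AdjoinRoot.mk_X, hφ, eval_X, AdjoinRoot.mk_X]
  rw [this]; rfl

lemma coprime_jordan {z : F} (hz : z ≠ 1) (e : ℕ) : IsCoprime (X - C z) ((X - C (1 : F)) ^ e) := by
  apply IsCoprime.pow_right
  exact isCoprime_X_sub_C_of_isUnit_sub (sub_ne_zero.2 hz).isUnit

end blocks

end Pool.Agent.H709L
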