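import Pool.Agent.H709L.T2
import Pool.Agent.H709L.Blocks

set_option autoImplicit false

/-!
Absorbing a bounded operator into a large scalar operator.
-/

namespace Pool.Agent.H709L

open Polynomial

/-- coprime to all irreducible polynomials of degree between `2` and `s`. -/
def Away {F : Type} [Field F] (s : ℕ) (P : F[X]) : Prop :=
  ∀ g : F[X], Irreducible g → 2 ≤ g.natDegree → g.natDegree ≤ s → IsCoprime P g

section cop

variable {F : Type} [Field F]

lemma cop_of_lt {P g : F[X]} (hP : Irreducible P) (hg : g ≠ 0) (h : g.natDegree < P.natDegree) :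
    IsCoprime P g := by
  rw [hP.coprime_iff_not_dvd]
  intro hd
  have := natDegree_le_of_dvd hd hg
  omega

lemma cop_XX {P : F[X]} (hP : Irreducible P) (h : 2 ≤ P.natDegree) :
    IsCoprime P (X * (X - 1)) := by
  refine (cop_of_lt hP X_ne_zero (by rw [natDegree_X]; omega)).mul_right (cop_of_lt hP ?_ ?_)
  · rw [← C_1]; exact X_sub_C_ne_zero 1
  · rw [← C_1, natDegree_X_sub_C]; omega

lemma away_of_lt {P : F[X]} {s : ℕ} (hP : Irreducible P) (h : s < P.natDegree) : Away s P :=
  fun g hg _ h2 => cop_of_lt hP hg.ne_zero (by omega)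

lemma away_X (s : ℕ) : Away s (X : F[X]) :=
  fun g hg h1 _ => (cop_of_lt hg X_ne_zero (by rw [natDegree_X]; omega)).symm

lemma away_XX (s : ℕ) : Away s (X * (X - 1) : F[X]) :=
  fun g hg h1 _ => (cop_XX hg h1).symm

lemma Away.mul {s : ℕ} {P Q : F[X]} (hP : Away s P) (hQ : Away s Q) : Away s (P * Q) :=
  fun g hg h1 h2 => (hP g hg h1 h2).mul_left (hQ g hg h1 h2)

lemma Away.mono {s t : ℕ} {P : F[X]} (hP : Away t P) (h : s ≤ t) : Away s P :=
  fun g hg h1 h2 => hP g hg h1 (h2.trans h)

end cop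

/-- splitting off a vector on which the compression is not `c`. -/
lemma exists_cmp {F V : Type} [Field F] [AddCommGroup V] [Module F V] [FiniteDimensional F V]
    (A : Module.End F V) (c : F) (hA : A ≠ c • (1 : Module.End F V)) :
    ∃ (z : F) (l : V →ₗ[F] F) (A'' : Module.End F (LinearMap.ker l)), z ≠ c ∧
      Module.finrank F (LinearMap.ker l) + 1 = Module.finrank F V ∧
      Cmp A (z • (1 : Module.End F F)) A'' := by
  obtain ⟨v, hv⟩ : ∃ v, A v - c • v ≠ 0 := by
    by_contra hcon
    push Not at hcon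
    apply hA
    ext v
    exact sub_eq_zero.1 (hcon v)
  have hv0 : v ≠ 0 := by
    rintro rfl; apply hv; simp
  have ex : ∀ w : V, w ≠ 0 → ∃ φ : V →ₗ[F] F, φ w ≠ 0 := by
    intro w hw
    by_contra hcon
    push Not at hcon
    exact hw ((Module.forall_dual_apply_eq_zero_iff F w).1 hcon)
  obtain ⟨φ, h1, h2⟩ : ∃ φ : V →ₗ[F] F, φ v ≠ 0 ∧ φ (A v - c • v) ≠ 0 := by
    obtain ⟨φ1, h1⟩ := ex v hv0
    obtain ⟨φ2, h2⟩ := ex _ hv
    by_cases e1 : φ1 (A v - c • v) = 0
    · by_cases e2 : φ2 v = 0
      · refine ⟨φ1 + φ2, ?_, ?_⟩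
        · rw [LinearMap.add_apply, e2, add_zero]; exact h1
        · rw [LinearMap.add_apply, e1, zero_add]; exact h2
      · exact ⟨φ2, e2, h2⟩
    · exact ⟨φ1, h1, e1⟩
  set l : V →ₗ[F] F := (φ v)⁻¹ • φ with hl
  have lv : l v = 1 := by
    rw [hl, LinearMap.smul_apply, smul_eq_mul, inv_mul_cancel₀ h1]
  have lN : l (A v - c • v) ≠ 0 := by
    rw [hl, LinearMap.smul_apply, smul_eq_mul]
    exact mul_ne_zero (inv_ne_zero h1) h2
  set z : F := l (A v) with hz
  have hzc : z ≠ c := by
    intro h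
    apply lN
    rw [map_sub, map_smul, lv, ← hz, h, smul_eq_mul, mul_one, sub_self]
  have hmem : ∀ u : V, A u - l (A u) • v ∈ LinearMap.ker l := by
    intro u
    rw [LinearMap.mem_ker, map_sub, map_smul, lv, smul_eq_mul, mul_one, sub_self]
  let A'' : Module.End F (LinearMap.ker l) :=
    LinearMap.codRestrict (LinearMap.ker l)
      ((A - (LinearMap.smulRight (l.comp A) v)).comp (LinearMap.ker l).subtype) (fun u => hmem u)
  have hA'' : ∀ u : LinearMap.ker l, ((A'' u : LinearMap.ker l) : V) = A u - l (A u) • v :=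
    fun u => rfl
  have hker : Module.finrank F (LinearMap.ker l) + 1 = Module.finrank F V := by
    have h1 := LinearMap.finrank_range_add_finrank_ker l
    have h2 : LinearMap.range l = ⊤ := by
      rw [LinearMap.range_eq_top]
      intro a
      exact ⟨a • v, by rw [map_smul, lv, smul_eq_mul, mul_one]⟩
    rw [h2, finrank_top, Module.finrank_self] at h1
    omega
  refine ⟨z, l, A'', hzc, hker, ?_⟩
  let T : (F × LinearMap.ker l) →ₗ[F] V :=
    (LinearMap.toSpanSingleton F V v).coprod (LinearMap.ker l).subtype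
  have hT : ∀ a (u : LinearMap.ker l), T (a, u) = a • v + (u : V) := fun a u => by simp [T]
  have hinj : Function.Injective T := by
    rw [injective_iff_map_eq_zero]
    rintro ⟨a, u⟩ h
    rw [hT] at h
    have h1 := congrArg l h
    rw [map_add, map_smul, lv, LinearMap.mem_ker.1 u.2, add_zero, map_zero, smul_eq_mul,
      mul_one] at h1
    rw [h1, zero_smul, zero_add] at h
    rw [h1]
    exact Prod.ext rfl (Subtype.ext h)
  have hfr : Module.finrank F (F × LinearMap.ker l) = Module.finrank F V := by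
    rw [Module.finrank_prod, Module.finrank_self]; omega
  refine ⟨T.linearEquivOfInjective hinj hfr, fun a => ⟨⟨_, hmem (a • v)⟩, ?_⟩,
    fun u => ⟨l (A u), ?_⟩⟩
  · rw [LinearMap.linearEquivOfInjective_apply, LinearMap.linearEquivOfInjective_apply, hT, hT]
    show A (a • v + ((0 : LinearMap.ker l) : V)) = (z * a) • v + (A (a • v) - l (A (a • v)) • v)
    rw [Submodule.coe_zero, add_zero, map_smul, map_smul, ← hz, smul_eq_mul, mul_comm a z]
    abel
  · rw [LinearMap.linearEquivOfInjective_apply, LinearMap.linearEquivOfInjective_apply, hT, hT,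
      hA'', zero_smul, zero_add]
    abel

lemma sim_scalar {F V W : Type} [Field F] [AddCommGroup V] [Module F V] [AddCommGroup W]
    [Module F W] [FiniteDimensional F V] [FiniteDimensional F W] (c : F)
    (h : Module.finrank F V = Module.finrank F W) :
    Sim (c • (1 : Module.End F V)) (c • (1 : Module.End F W)) :=
  ⟨LinearEquiv.ofFinrankEq V W h, fun v => by simp⟩

lemma scalar_prod {F V W : Type} [Field F] [AddCommGroup V] [Module F V] [AddCommGroup W]
    [Module F W] (c : F) :
    (LinearMap.prodMap (c • (1 : Module.End F V)) (c • (1 : Module.End F W)) :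
      Module.End F (V × W)) = c • (1 : Module.End F (V × W)) := by
  ext <;> simp

theorem absScalar (k : ℕ) (hk : 1 ≤ k) (F : Type) [Field F] [Fintype F] (b : ℕ) :
    ∀ s : ℕ, ∃ M₀ : ℕ, ∀ M ≥ M₀, ∀ (V W : Type) [AddCommGroup V] [Module F V]
      [FiniteDimensional F V] [AddCommGroup W] [Module F W] [FiniteDimensional F W],
      Module.finrank F V = b → Module.finrank F W = M → ∀ (A : Module.End F V) (c : F),
      ∃ P Q : F[X], SolP k (LinearMap.prodMap A (c • (1 : Module.End F W)) :
        Module.End F (V × W)) P Q ∧ Away s P ∧ Away s Q ∧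
        (c ≠ 0 → IsCoprime P (X * (X - 1)) ∧ IsCoprime Q (X * (X - 1))) := by
  induction b with
  | zero =>
    intro s
    obtain ⟨m₁, hm₁⟩ := T1 k hk F (max s 1)
    refine ⟨m₁, fun M hM V W _ _ _ _ _ _ hV hW A c => ?_⟩
    have : Subsingleton V := Module.finrank_zero_iff.1 hV
    have hA : A = c • (1 : Module.End F V) := by
      ext v; exact Subsingleton.elim _ _
    rw [hA, scalar_prod]
    by_cases hc : c = 0
    · refine ⟨X, X, ?_, away_X s, away_X s, fun h => absurd hc h⟩
      rw [hc, zero_smul]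
      exact SolP.zero hk
    · obtain ⟨P, Q, hP, hQ, hPd, hQd, hS⟩ := hm₁ (0 + M) (by omega) c hc
      refine ⟨P, Q, hS (V × W) (by rw [Module.finrank_prod, hV, hW]),
        away_of_lt hP (lt_of_le_of_lt (le_max_left _ _) hPd),
        away_of_lt hQ (lt_of_le_of_lt (le_max_left _ _) hQd), fun _ => ?_⟩
      have h1 : 1 < P.natDegree := lt_of_le_of_lt (le_max_right _ _) hPd
      have h2 : 1 < Q.natDegree := lt_of_le_of_lt (le_max_right _ _) hQd
      exact ⟨cop_XX hP h1, cop_XX hQ h2⟩
  | succ b ih =>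
    intro s
    obtain ⟨m₁, hm₁⟩ := T1 k hk F (max s 1)
    obtain ⟨m, hsm, hm2, hT2⟩ := T2 k hk F s
    obtain ⟨M₁, hM₁⟩ := ih m
    refine ⟨m₁ + M₁ + m, fun M hM V W _ _ _ _ _ _ hV hW A c => ?_⟩
    by_cases hA : A = c • (1 : Module.End F V)
    · rw [hA, scalar_prod]
      by_cases hc : c = 0
      · refine ⟨X, X, ?_, away_X s, away_X s, fun h => absurd hc h⟩
        rw [hc, zero_smul]
        exact SolP.zero hk
      · obtain ⟨P, Q, hP, hQ, hPd, hQd, hS⟩ := hm₁ (b + 1 + M) (by omega) c hc
        refine ⟨P, Q, hS (V × W) (by rw [Module.finrank_prod, hV, hW]),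
          away_of_lt hP (lt_of_le_of_lt (le_max_left _ _) hPd),
          away_of_lt hQ (lt_of_le_of_lt (le_max_left _ _) hQd), fun _ => ?_⟩
        have h1 : 1 < P.natDegree := lt_of_le_of_lt (le_max_right _ _) hPd
        have h2 : 1 < Q.natDegree := lt_of_le_of_lt (le_max_right _ _) hQd
        exact ⟨cop_XX hP h1, cop_XX hQ h2⟩
    · obtain ⟨z, l, A'', hzc, hker, hC⟩ := exists_cmp A c hA
      -- split W
      have hC2 : Cmp (c • (1 : Module.End F W)) (c • (1 : Module.End F (Fin (m - 1) → F)))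
          (c • (1 : Module.End F (Fin (M - (m - 1)) → F))) := by
        refine (Cmp.direct _ _).sim ?_
        rw [scalar_prod]
        refine sim_scalar c ?_
        rw [Module.finrank_prod, Module.finrank_fin_fun, Module.finrank_fin_fun, hW]
        omega
      obtain ⟨P1, Q1, hP1, hQ1, hP1d, hQ1d, hS1⟩ := hT2 c z hzc
      obtain ⟨P2, Q2, hS2, hP2, hQ2, hc2⟩ := hM₁ (M - (m - 1)) (by omega) (LinearMap.ker l)
        (Fin (M - (m - 1)) → F) (by omega) (Module.finrank_fin_fun F) A'' c
      refine ⟨P1 * P2, Q1 * Q2, (hC.prodProd hC2).solP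
        (hS1 (Fin (m - 1) → F) (Module.finrank_fin_fun F)) hS2
        (hP2 P1 hP1 (by omega) (by omega)).symm (hQ2 Q1 hQ1 (by omega) (by omega)).symm,
        (away_of_lt hP1 (by omega)).mul (hP2.mono hsm.le),
        (away_of_lt hQ1 (by omega)).mul (hQ2.mono hsm.le), fun hc => ?_⟩
      exact ⟨(cop_XX hP1 (by omega)).mul_left (hc2 hc).1,
        (cop_XX hQ1 (by omega)).mul_left (hc2 hc).2⟩

end Pool.Agent.H709L
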