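import Mathlib

set_option autoImplicit false

/-!
Sums of two `k`-th powers of endomorphisms, with annihilating polynomials, and block decompositions.
-/

namespace Pool.Agent.H709L

open Polynomial

section api

variable {F : Type*} [Field F]
variable {V W V' W' : Type*} [AddCommGroup V] [Module F V] [AddCommGroup W] [Module F W]
  [AddCommGroup V'] [Module F V'] [AddCommGroup W'] [Module F W']

/-- being a `k`-th power. -/
def Pw (k : ℕ) (L : Module.End F V) : Prop := ∃ X : Module.End F V, X ^ k = L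

/-- being a sum of two `k`-th powers. -/
def Sol (k : ℕ) (A : Module.End F V) : Prop :=
  ∃ L U : Module.End F V, A = L + U ∧ Pw k L ∧ Pw k U

/-- being a sum of two `k`-th powers annihilated by given polynomials. -/
def SolP (k : ℕ) (A : Module.End F V) (P Q : F[X]) : Prop :=
  ∃ L U : Module.End F V, A = L + U ∧ Pw k L ∧ Pw k U ∧ aeval L P = 0 ∧ aeval U Q = 0

lemma SolP.sol {k : ℕ} {A : Module.End F V} {P Q : F[X]} (h : SolP k A P Q) : Sol k A := by
  obtain ⟨L, U, h1, h2, h3, -⟩ := h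
  exact ⟨L, U, h1, h2, h3⟩

lemma intertwine (T : V →ₗ[F] W) (A : Module.End F V) (B : Module.End F W)
    (h : ∀ v, T (A v) = B (T v)) (p : F[X]) (v : V) : T (aeval A p v) = aeval B p (T v) := by
  have hp : ∀ (n : ℕ) (v : V), T ((A ^ n) v) = (B ^ n) (T v) := by
    intro n
    induction n with
    | zero => intro v; simp
    | succ n ih =>
      intro v
      rw [pow_succ, pow_succ, Module.End.mul_apply, Module.End.mul_apply, ih, h]
  induction p using Polynomial.induction_on' with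
  | add p q hp hq => simp [hp, hq]
  | monomial n a =>
    rw [aeval_monomial, aeval_monomial, Module.End.mul_apply, Module.End.mul_apply,
      Module.algebraMap_end_apply, Module.algebraMap_end_apply, map_smul, hp]

lemma Pw.conj {k : ℕ} {A : Module.End F V} {B : Module.End F W} (e : V ≃ₗ[F] W)
    (h : ∀ v, e (A v) = B (e v)) (hA : Pw k A) : Pw k B := by
  obtain ⟨X, rfl⟩ := hA
  refine ⟨e.conjAlgEquiv F X, ?_⟩
  rw [← map_pow]
  ext w
  rw [LinearEquiv.conjAlgEquiv_apply]
  simp only [LinearMap.comp_apply, LinearEquiv.coe_coe]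
  rw [h, e.apply_symm_apply]

lemma aeval_conj_zero {A : Module.End F V} {B : Module.End F W} (e : V ≃ₗ[F] W)
    (h : ∀ v, e (A v) = B (e v)) {P : F[X]} (hA : aeval A P = 0) : aeval B P = 0 := by
  ext w
  obtain ⟨v, rfl⟩ := e.surjective w
  have := intertwine e.toLinearMap A B h P v
  simp only [LinearEquiv.coe_coe] at this
  rw [← this, hA]
  simp

lemma Pw.prodMap {k : ℕ} {A : Module.End F V} {B : Module.End F W} (hA : Pw k A) (hB : Pw k B) :
    Pw k (LinearMap.prodMap A B : Module.End F (V × W)) := by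
  obtain ⟨X, rfl⟩ := hA
  obtain ⟨Y, rfl⟩ := hB
  refine ⟨LinearMap.prodMap X Y, ?_⟩
  have : ∀ n : ℕ, (LinearMap.prodMap X Y : Module.End F (V × W)) ^ n
      = LinearMap.prodMap (X ^ n) (Y ^ n) := by
    intro n
    induction n with
    | zero => ext <;> simp
    | succ n ih => rw [pow_succ, ih, pow_succ, pow_succ, LinearMap.prodMap_mul]
  exact this k

/-- similarity. -/
def Sim (A : Module.End F V) (B : Module.End F W) : Prop :=
  ∃ e : V ≃ₗ[F] W, ∀ v, e (A v) = B (e v)

lemma Sim.refl (A : Module.End F V) : Sim A A := ⟨LinearEquiv.refl F V, fun _ => rfl⟩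

lemma Sim.symm {A : Module.End F V} {B : Module.End F W} (h : Sim A B) : Sim B A := by
  obtain ⟨e, he⟩ := h
  refine ⟨e.symm, fun w => ?_⟩
  apply e.injective
  rw [he, e.apply_symm_apply, e.apply_symm_apply]

lemma Sim.trans {A : Module.End F V} {B : Module.End F W} {C : Module.End F V'} (h : Sim A B)
    (h' : Sim B C) : Sim A C := by
  obtain ⟨e, he⟩ := h
  obtain ⟨e', he'⟩ := h'
  exact ⟨e.trans e', fun v => by simp [he, he']⟩

lemma Sim.prodMap {A : Module.End F V} {B : Module.End F W} {A' : Module.End F V'}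
    {B' : Module.End F W'} (h : Sim A A') (h' : Sim B B') :
    Sim (LinearMap.prodMap A B : Module.End F (V × W))
      (LinearMap.prodMap A' B' : Module.End F (V' × W')) := by
  obtain ⟨e, he⟩ := h
  obtain ⟨e', he'⟩ := h'
  exact ⟨e.prodCongr e', fun v => by simp [he, he']⟩

lemma Sol.sim {k : ℕ} {A : Module.End F V} {B : Module.End F W} (h : Sim A B) (hA : Sol k A) :
    Sol k B := by
  obtain ⟨e, he⟩ := h
  obtain ⟨L, U, h1, h2, h3⟩ := hA
  refine ⟨e.conjAlgEquiv F L, e.conjAlgEquiv F U, ?_, h2.conj e fun v => ?_,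
    h3.conj e fun v => ?_⟩
  · rw [← map_add, ← h1]
    ext w
    obtain ⟨v, rfl⟩ := e.surjective w
    simp [LinearEquiv.conjAlgEquiv_apply, he]
  · simp [LinearEquiv.conjAlgEquiv_apply]
  · simp [LinearEquiv.conjAlgEquiv_apply]

lemma SolP.sim {k : ℕ} {A : Module.End F V} {B : Module.End F W} {P Q : F[X]} (h : Sim A B)
    (hA : SolP k A P Q) : SolP k B P Q := by
  obtain ⟨e, he⟩ := h
  obtain ⟨L, U, h1, h2, h3, h4, h5⟩ := hA
  have eL : ∀ v, e (L v) = (e.conjAlgEquiv F L) (e v) := fun v => by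
    simp [LinearEquiv.conjAlgEquiv_apply]
  have eU : ∀ v, e (U v) = (e.conjAlgEquiv F U) (e v) := fun v => by
    simp [LinearEquiv.conjAlgEquiv_apply]
  refine ⟨e.conjAlgEquiv F L, e.conjAlgEquiv F U, ?_, h2.conj e eL,
    h3.conj e eU, aeval_conj_zero e eL h4, aeval_conj_zero e eU h5⟩
  rw [← map_add, ← h1]
  ext w
  obtain ⟨v, rfl⟩ := e.surjective w
  simp [LinearEquiv.conjAlgEquiv_apply, he]

lemma Sol.prodMap {k : ℕ} {A : Module.End F V} {B : Module.End F W} (hA : Sol k A) (hB : Sol k B) :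
    Sol k (LinearMap.prodMap A B : Module.End F (V × W)) := by
  obtain ⟨L, U, rfl, h2, h3⟩ := hA
  obtain ⟨L', U', rfl, h2', h3'⟩ := hB
  exact ⟨LinearMap.prodMap L L', LinearMap.prodMap U U', by ext <;> simp, h2.prodMap h2',
    h3.prodMap h3'⟩

/-- block triangular operators with coprime annihilators. -/
theorem Pw.tri {k : ℕ} {L1 : Module.End F V} {L2 : Module.End F W} {P1 P2 : F[X]}
    (hL1 : Pw k L1) (hL2 : Pw k L2) (hP1 : aeval L1 P1 = 0) (hP2 : aeval L2 P2 = 0)
    (cop : IsCoprime P1 P2) (Λ : Module.End F (V × W)) (h1 : ∀ x, (Λ x).1 = L1 x.1)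
    (h2 : ∀ w, Λ (0, w) = (0, L2 w)) : Pw k Λ := by
  obtain ⟨a, b, hab⟩ := cop
  set E : Module.End F (V × W) := aeval Λ (b * P2) with hE
  have hE1 : ∀ x, (E x).1 = x.1 := by
    intro x
    have := intertwine (LinearMap.fst F V W) Λ L1 h1 (b * P2) x
    simp only [LinearMap.fst_apply] at this
    rw [hE, this]
    have e1 : b * P2 = 1 - a * P1 := by rw [← hab]; ring
    rw [e1, map_sub, map_mul, hP1, mul_zero, sub_zero, map_one]
    rfl
  have hE2 : ∀ w, E (0, w) = 0 := by
    intro w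
    have := intertwine (LinearMap.inr F V W) L2 Λ (fun w => by
      rw [LinearMap.inr_apply, LinearMap.inr_apply, h2]) (b * P2) w
    simp only [LinearMap.inr_apply] at this
    rw [hE, ← this, map_mul, hP2, mul_zero]
    rfl
  set S : V →ₗ[F] W := (LinearMap.snd F V W).comp (E.comp (LinearMap.inl F V W)) with hS
  have hE0 : ∀ v w, E (v, w) = (v, S v) := by
    intro v w
    have : ((v, w) : V × W) = (v, 0) + (0, w) := by simp
    rw [this, map_add, hE2, add_zero]
    exact Prod.ext (hE1 _) rfl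
  have comm : ∀ x, Λ (E x) = E (Λ x) := fun x =>
    intertwine (T := Λ) Λ Λ (fun _ => rfl) (b * P2) x
  let τ : (V × W) ≃ₗ[F] (V × W) :=
    { toFun := fun x => (x.1, x.2 + S x.1)
      map_add' := fun x y => by ext <;> simp [add_add_add_comm]
      map_smul' := fun c x => by ext <;> simp
      invFun := fun x => (x.1, x.2 - S x.1)
      left_inv := fun x => by simp
      right_inv := fun x => by simp }
  refine (hL1.prodMap hL2).conj τ fun x => ?_
  obtain ⟨v, w⟩ := x
  show (L1 v, L2 w + S (L1 v)) = Λ (v, w + S v)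
  have : ((v, w + S v) : V × W) = E (v, 0) + (0, w) := by
    rw [hE0]; ext
    · simp
    · simp [add_comm]
  rw [this, map_add, comm, h2]
  have hv : Λ (v, 0) = (L1 v, (Λ (v, 0)).2) := Prod.ext (h1 _) rfl
  rw [hv, hE0]
  ext
  · simp
  · simp [add_comm]

theorem tri_annih {L1 : Module.End F V} {L2 : Module.End F W} {P1 P2 : F[X]}
    (hP1 : aeval L1 P1 = 0) (hP2 : aeval L2 P2 = 0)
    (Λ : Module.End F (V × W)) (h1 : ∀ x, (Λ x).1 = L1 x.1)
    (h2 : ∀ w, Λ (0, w) = (0, L2 w)) : aeval Λ (P1 * P2) = 0 := by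
  apply LinearMap.ext
  intro x
  rw [mul_comm, map_mul, Module.End.mul_apply]
  have e1 := intertwine (LinearMap.fst F V W) Λ L1 h1 P1 x
  rw [hP1] at e1
  simp only [LinearMap.fst_apply, LinearMap.zero_apply] at e1
  have e2 : aeval Λ P1 x = LinearMap.inr F V W (aeval Λ P1 x).2 := Prod.ext e1 rfl
  have e3 := intertwine (LinearMap.inr F V W) L2 Λ (fun w => by
      rw [LinearMap.inr_apply, LinearMap.inr_apply, h2]) P2 (aeval Λ P1 x).2
  rw [e2, ← e3, hP2]
  simp

/-- the block lemma. -/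
theorem SolP.block {k : ℕ} {A : Module.End F (V × W)} {A1 : Module.End F V} {A2 : Module.End F W}
    {P1 Q1 P2 Q2 : F[X]} (h1 : ∀ v, (A (v, 0)).1 = A1 v) (h2 : ∀ w, (A (0, w)).2 = A2 w)
    (s1 : SolP k A1 P1 Q1) (s2 : SolP k A2 P2 Q2) (cP : IsCoprime P1 P2) (cQ : IsCoprime Q1 Q2) :
    SolP k A (P1 * P2) (Q1 * Q2) := by
  obtain ⟨L1, U1, rfl, pL1, pU1, aL1, aU1⟩ := s1
  obtain ⟨L2, U2, rfl, pL2, pU2, aL2, aU2⟩ := s2
  let L : Module.End F (V × W) := (L1.comp (LinearMap.fst F V W)).prod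
    ((LinearMap.snd F V W).comp (A.comp ((LinearMap.inl F V W).comp (LinearMap.fst F V W)))
      + L2.comp (LinearMap.snd F V W))
  let U : Module.End F (V × W) := LinearMap.prod
    ((LinearMap.fst F V W).comp (A.comp ((LinearMap.inr F V W).comp (LinearMap.snd F V W)))
      + U1.comp (LinearMap.fst F V W)) (U2.comp (LinearMap.snd F V W))
  have hA0 : A (0, 0) = 0 := map_zero A
  have hL1 : ∀ x, (L x).1 = L1 x.1 := fun x => rfl
  have hL2 : ∀ w, L (0, w) = (0, L2 w) := fun w => by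
    ext
    · simp [L]
    · simp [L, hA0]
  -- the upper triangular part after swapping
  let σ := LinearEquiv.prodComm F V W
  let U' : Module.End F (W × V) := σ.conjAlgEquiv F U
  have hU'1 : ∀ x, (U' x).1 = U2 x.1 := fun x => by
    simp [U', U, σ, LinearEquiv.conjAlgEquiv_apply]
  have hU'2 : ∀ v, U' (0, v) = (0, U1 v) := fun v => by
    ext
    · simp [U', U, σ, LinearEquiv.conjAlgEquiv_apply]
    · simp [U', U, σ, LinearEquiv.conjAlgEquiv_apply, hA0]
  have hUU' : ∀ x, σ.symm (U' x) = U (σ.symm x) := fun x => by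
    simp [U', LinearEquiv.conjAlgEquiv_apply]
  refine ⟨L, U, ?_, Pw.tri pL1 pL2 aL1 aL2 cP L hL1 hL2, ?_, tri_annih aL1 aL2 L hL1 hL2, ?_⟩
  · apply LinearMap.ext
    rintro ⟨v, w⟩
    have e : A (v, w) = A (v, 0) + A (0, w) := by rw [← map_add]; simp
    rw [e]
    refine Prod.ext ?_ ?_
    · show (A (v, 0)).1 + (A (0, w)).1 = L1 v + ((A (0, w)).1 + U1 v)
      rw [h1, LinearMap.add_apply]
      abel
    · show (A (v, 0)).2 + (A (0, w)).2 = ((A (v, 0)).2 + L2 w) + U2 w
      rw [h2, LinearMap.add_apply]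
      abel
  · exact (Pw.tri pU2 pU1 aU2 aU1 cQ.symm U' hU'1 hU'2).conj σ.symm hUU'
  · rw [mul_comm]
    exact aeval_conj_zero σ.symm hUU' (tri_annih aU2 aU1 U' hU'1 hU'2)

/-- `A` is, in a suitable decomposition of its space, a block operator with the given diagonal
blocks. -/
def Cmp (A : Module.End F V) (A1 : Module.End F V') (A2 : Module.End F W') : Prop :=
  ∃ Φ : (V' × W') ≃ₗ[F] V, (∀ v, ∃ w', A (Φ (v, 0)) = Φ (A1 v, w')) ∧
    (∀ w, ∃ v', A (Φ (0, w)) = Φ (v', A2 w))

theorem Cmp.solP {k : ℕ} {A : Module.End F V} {A1 : Module.End F V'} {A2 : Module.End F W'}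
    {P1 Q1 P2 Q2 : F[X]} (h : Cmp A A1 A2)
    (s1 : SolP k A1 P1 Q1) (s2 : SolP k A2 P2 Q2) (cP : IsCoprime P1 P2) (cQ : IsCoprime Q1 Q2) :
    SolP k A (P1 * P2) (Q1 * Q2) := by
  obtain ⟨Φ, h1, h2⟩ := h
  have key : SolP k (Φ.symm.conjAlgEquiv F A) (P1 * P2) (Q1 * Q2) := by
    refine SolP.block (A1 := A1) (A2 := A2) ?_ ?_ s1 s2 cP cQ
    · intro v
      obtain ⟨w', hw⟩ := h1 v
      simp [LinearEquiv.conjAlgEquiv_apply, hw]
    · intro w
      obtain ⟨v', hv⟩ := h2 w
      simp [LinearEquiv.conjAlgEquiv_apply, hv]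
  refine key.sim ⟨Φ, fun x => ?_⟩
  simp [LinearEquiv.conjAlgEquiv_apply]

lemma Cmp.sim {A : Module.End F V} {B : Module.End F W} {A1 : Module.End F V'}
    {A2 : Module.End F W'} (h : Cmp A A1 A2) (hs : Sim A B) : Cmp B A1 A2 := by
  obtain ⟨Φ, h1, h2⟩ := h
  obtain ⟨e, he⟩ := hs
  refine ⟨Φ.trans e, fun v => ?_, fun w => ?_⟩
  · obtain ⟨w', hw⟩ := h1 v
    exact ⟨w', by simp [← he, hw]⟩
  · obtain ⟨v', hv⟩ := h2 w
    exact ⟨v', by simp [← he, hv]⟩

lemma Cmp.sim1 {V'' : Type*} [AddCommGroup V''] [Module F V'']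
    {A : Module.End F V} {A1 : Module.End F V'} {A1' : Module.End F V''}
    {A2 : Module.End F W'} (h : Cmp A A1 A2) (hs : Sim A1 A1') : Cmp A A1' A2 := by
  obtain ⟨Φ, h1, h2⟩ := h
  obtain ⟨e, he⟩ := hs
  refine ⟨(e.symm.prodCongr (LinearEquiv.refl F W')).trans Φ, fun v => ?_, fun w => ?_⟩
  · obtain ⟨w', hw⟩ := h1 (e.symm v)
    refine ⟨w', ?_⟩
    have : e.symm (A1' v) = A1 (e.symm v) := by
      apply e.injective
      rw [he, e.apply_symm_apply, e.apply_symm_apply]
    simp only [LinearEquiv.trans_apply, LinearEquiv.prodCongr_apply, LinearEquiv.refl_apply]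
    rw [this, ← hw]
  · obtain ⟨v', hv⟩ := h2 w
    refine ⟨e v', ?_⟩
    simp only [LinearEquiv.trans_apply, LinearEquiv.prodCongr_apply, LinearEquiv.refl_apply,
      map_zero, e.symm_apply_apply]
    exact hv

lemma Cmp.swap {A : Module.End F V} {A1 : Module.End F V'} {A2 : Module.End F W'}
    (h : Cmp A A1 A2) : Cmp A A2 A1 := by
  obtain ⟨Φ, h1, h2⟩ := h
  refine ⟨(LinearEquiv.prodComm F W' V').trans Φ, fun v => ?_, fun w => ?_⟩
  · obtain ⟨w', hw⟩ := h2 v
    exact ⟨w', by simpa using hw⟩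
  · obtain ⟨w', hw⟩ := h1 w
    exact ⟨w', by simpa using hw⟩

lemma Cmp.sim2 {V'' : Type*} [AddCommGroup V''] [Module F V'']
    {A : Module.End F V} {A1 : Module.End F V'} {A2' : Module.End F V''}
    {A2 : Module.End F W'} (h : Cmp A A1 A2) (hs : Sim A2 A2') : Cmp A A1 A2' :=
  (h.swap.sim1 hs).swap

lemma Cmp.direct (A1 : Module.End F V) (A2 : Module.End F W) :
    Cmp (LinearMap.prodMap A1 A2 : Module.End F (V × W)) A1 A2 :=
  ⟨LinearEquiv.refl F _, fun v => ⟨0, by simp⟩, fun w => ⟨0, by simp⟩⟩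

/-- adding a direct summand to the first block. -/
lemma Cmp.add {A : Module.End F V} {A1 : Module.End F V'} {A2 : Module.End F W'}
    (h : Cmp A A1 A2) (B : Module.End F W) :
    Cmp (LinearMap.prodMap B A : Module.End F (W × V))
      (LinearMap.prodMap B A1 : Module.End F (W × V')) A2 := by
  obtain ⟨Φ, h1, h2⟩ := h
  refine ⟨(LinearEquiv.prodAssoc F W V' W').trans ((LinearEquiv.refl F W).prodCongr Φ),
    fun v => ?_, fun w => ?_⟩
  · obtain ⟨w', hw⟩ := h1 v.2
    refine ⟨w', ?_⟩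
    obtain ⟨v1, v2⟩ := v
    simp [hw]
  · obtain ⟨w', hw⟩ := h2 w
    refine ⟨(0, w'), ?_⟩
    simp [hw]

/-- direct sum of two block decompositions. -/
lemma Cmp.prodProd {V₂ V₂' W₂' : Type*} [AddCommGroup V₂] [Module F V₂] [AddCommGroup V₂']
    [Module F V₂'] [AddCommGroup W₂'] [Module F W₂']
    {A : Module.End F V} {A1 : Module.End F V'} {A2 : Module.End F W'}
    {B : Module.End F V₂} {B1 : Module.End F V₂'} {B2 : Module.End F W₂'}
    (h : Cmp A A1 A2) (h' : Cmp B B1 B2) :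
    Cmp (LinearMap.prodMap A B : Module.End F (V × V₂))
      (LinearMap.prodMap A1 B1 : Module.End F (V' × V₂'))
      (LinearMap.prodMap A2 B2 : Module.End F (W' × W₂')) := by
  obtain ⟨Φ, h1, h2⟩ := h
  obtain ⟨Ψ, k1, k2⟩ := h'
  refine ⟨(LinearEquiv.prodProdProdComm F V' V₂' W' W₂').trans (Φ.prodCongr Ψ),
    fun v => ?_, fun w => ?_⟩
  · obtain ⟨w', hw⟩ := h1 v.1
    obtain ⟨w'', hw'⟩ := k1 v.2
    refine ⟨(w', w''), ?_⟩
    obtain ⟨v1, v2⟩ := v
    simp [hw, hw']
  · obtain ⟨w', hw⟩ := h2 w.1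
    obtain ⟨w'', hw'⟩ := k2 w.2
    refine ⟨(w', w''), ?_⟩
    obtain ⟨v1, v2⟩ := w
    simp [hw, hw']

/-- pointwise action on functions. -/
def piMap (α : Type*) (A : Module.End F V) : Module.End F (α → V) :=
  LinearMap.pi fun i => A.comp (LinearMap.proj i)

@[simp] lemma piMap_apply (α : Type*) (A : Module.End F V) (f : α → V) (i : α) :
    piMap α A f i = A (f i) := rfl

lemma Cmp.pi {A : Module.End F V} {A1 : Module.End F V'} {A2 : Module.End F W'}
    (h : Cmp A A1 A2) (α : Type*) : Cmp (piMap α A) (piMap α A1) (piMap α A2) := by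
  obtain ⟨Φ, h1, h2⟩ := h
  choose f hf using h1
  choose g hg using h2
  let Ψ : ((α → V') × (α → W')) ≃ₗ[F] (α → V) :=
    { toFun := fun x i => Φ (x.1 i, x.2 i)
      map_add' := fun x y => by
        ext i
        simp only [Prod.fst_add, Prod.snd_add, Pi.add_apply]
        rw [← map_add]; rfl
      map_smul' := fun c x => by
        ext i
        simp only [Prod.smul_fst, Prod.smul_snd, Pi.smul_apply, RingHom.id_apply]
        rw [← map_smul]; rfl
      invFun := fun y => (fun i => (Φ.symm (y i)).1, fun i => (Φ.symm (y i)).2)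
      left_inv := fun x => by ext i <;> simp
      right_inv := fun y => by ext i; simp }
  refine ⟨Ψ, fun v => ⟨fun i => f (v i), ?_⟩, fun w => ⟨fun i => g (w i), ?_⟩⟩
  · ext i
    exact hf (v i)
  · ext i
    exact hg (w i)

lemma Pw.pi {k : ℕ} {A : Module.End F V} (h : Pw k A) (α : Type*) : Pw k (piMap α A) := by
  obtain ⟨X, rfl⟩ := h
  refine ⟨piMap α X, ?_⟩
  have : ∀ n : ℕ, (piMap α X) ^ n = piMap α (X ^ n) := by
    intro n
    induction n with
    | zero => ext; simp
    | succ n ih =>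
      rw [pow_succ, ih, pow_succ]
      apply LinearMap.ext; intro f; ext i; rfl
  exact this k

lemma SolP.pi {k : ℕ} {A : Module.End F V} {P Q : F[X]} (h : SolP k A P Q) (α : Type*) :
    SolP k (piMap α A) P Q := by
  obtain ⟨L, U, rfl, h2, h3, h4, h5⟩ := h
  have key : ∀ (B : Module.End F V) (p : F[X]), aeval B p = 0 → aeval (piMap α B) p = 0 := by
    intro B p hp
    apply LinearMap.ext; intro f; ext i
    have := intertwine (LinearMap.proj i : (α → V) →ₗ[F] V) (piMap α B) B (fun v => rfl) p f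
    rw [hp] at this
    simpa using this
  exact ⟨piMap α L, piMap α U, by apply LinearMap.ext; intro f; ext i; rfl, h2.pi α, h3.pi α,
    key L P h4, key U Q h5⟩

lemma SolP.zero {k : ℕ} (hk : 1 ≤ k) : SolP k (0 : Module.End F V) X X :=
  ⟨0, 0, by simp, ⟨0, zero_pow (by omega)⟩, ⟨0, zero_pow (by omega)⟩, by simp, by simp⟩

/-- the same annihilators: direct sums. -/
lemma SolP.prodMap {k : ℕ} {A : Module.End F V} {B : Module.End F W} {P Q : F[X]}
    (hA : SolP k A P Q) (hB : SolP k B P Q) :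
    SolP k (LinearMap.prodMap A B : Module.End F (V × W)) P Q := by
  obtain ⟨L, U, rfl, h2, h3, h4, h5⟩ := hA
  obtain ⟨L', U', rfl, h2', h3', h4', h5'⟩ := hB
  have key : ∀ (B : Module.End F V) (C : Module.End F W) (p : F[X]), aeval B p = 0 →
      aeval C p = 0 → aeval (LinearMap.prodMap B C : Module.End F (V × W)) p = 0 := by
    intro B C p hp hp'
    apply LinearMap.ext; intro x
    have e1 := intertwine (LinearMap.fst F V W) (LinearMap.prodMap B C) B (fun v => rfl) p x
    have e2 := intertwine (LinearMap.snd F V W) (LinearMap.prodMap B C) C (fun v => rfl) p x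
    rw [hp] at e1
    rw [hp'] at e2
    exact Prod.ext e1 e2
  exact ⟨LinearMap.prodMap L L', LinearMap.prodMap U U', by ext <;> simp, h2.prodMap h2',
    h3.prodMap h3', key _ _ _ h4 h4', key _ _ _ h5 h5'⟩

/-- sum of two idempotents. -/
lemma SolP.idem {k : ℕ} (hk : 1 ≤ k) {P Q : Module.End F V} (hP : P * P = P) (hQ : Q * Q = Q) :
    SolP k (P + Q) (X * (X - 1)) (X * (X - 1)) := by
  have h1 : ∀ E : Module.End F V, E * E = E → Pw k E := by
    intro E hE
    refine ⟨E, ?_⟩
    obtain ⟨j, rfl⟩ : ∃ j, k = j + 1 := ⟨k - 1, by omega⟩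
    exact IsIdempotentElem.pow_succ_eq j hE
  have h2 : ∀ E : Module.End F V, E * E = E → aeval E (X * (X - 1) : F[X]) = 0 := by
    intro E hE
    simp [mul_sub, hE]
  exact ⟨P, Q, rfl, h1 P hP, h1 Q hQ, h2 P hP, h2 Q hQ⟩

end api

end Pool.Agent.H709L
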