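import Pool.Agent.H709L.AC

set_option autoImplicit false

/-!
Direct sums of cyclic operators over a fixed finite field.
-/

namespace Pool.Agent.H709L

open Polynomial

section dir

variable {F : Type} [Field F]

/-- direct sum of cyclic operators. -/
noncomputable def Dir {ι : Type} (hh : ι → F[X]) : Module.End F (∀ i, AdjoinRoot (hh i)) :=
  LinearMap.pi fun i => (mx (hh i)).comp (LinearMap.proj i)

lemma Dir_apply {ι : Type} (hh : ι → F[X]) (f : ∀ i, AdjoinRoot (hh i)) (i : ι) :
    Dir hh f i = mx (hh i) (f i) := rfl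

lemma Dir.split {ι : Type} (hh : ι → F[X]) (p : ι → Prop) :
    Sim (Dir hh) (LinearMap.prodMap (Dir (fun i : {i // p i} => hh i))
      (Dir (fun i : {i // ¬ p i} => hh i)) : Module.End F
        ((∀ i : {i // p i}, AdjoinRoot (hh i)) × (∀ i : {i // ¬ p i}, AdjoinRoot (hh i)))) := by
  classical
  let e : (∀ i, AdjoinRoot (hh i)) ≃ₗ[F]
      ((∀ i : {i // p i}, AdjoinRoot (hh i)) × (∀ i : {i // ¬ p i}, AdjoinRoot (hh i))) :=
    { toFun := fun f => (fun i => f i, fun i => f i)
      map_add' := fun f g => rfl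
      map_smul' := fun c f => rfl
      invFun := fun g i => if h : p i then g.1 ⟨i, h⟩ else g.2 ⟨i, h⟩
      left_inv := fun f => by
        funext i
        by_cases h : p i <;> simp [h]
      right_inv := fun g => by
        refine Prod.ext ?_ ?_
        · funext i; simp [i.2]
        · funext i; simp [i.2] }
  exact ⟨e, fun v => rfl⟩

lemma Dir.fiber {ι : Type} (hh : ι → F[X]) (h : F[X]) (H : ∀ i, hh i = h) :
    Sim (Dir hh) (piMap ι (mx h)) := by
  have : hh = fun _ => h := funext H
  subst this
  exact Sim.refl _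

lemma Sol.pi {V : Type} [AddCommGroup V] [Module F V] {k : ℕ} {A : Module.End F V}
    (h : Sol k A) (α : Type) : Sol k (piMap α A) := by
  obtain ⟨L, U, rfl, h2, h3⟩ := h
  exact ⟨piMap α L, piMap α U, by apply LinearMap.ext; intro f; ext i; rfl, h2.pi α, h3.pi α⟩

lemma sim_rearrange {V W U : Type} [AddCommGroup V] [Module F V] [AddCommGroup W] [Module F W]
    [AddCommGroup U] [Module F U] (a : Module.End F V) (b : Module.End F W)
    (c : Module.End F U) :
    Sim (LinearMap.prodMap (LinearMap.prodMap a c : Module.End F (V × U)) b :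
        Module.End F ((V × U) × W))
      (LinearMap.prodMap (LinearMap.prodMap a b : Module.End F (V × W)) c :
        Module.End F ((V × W) × U)) :=
  ⟨{ toFun := fun x => ((x.1.1, x.2), x.1.2)
     map_add' := fun x y => rfl
     map_smul' := fun c x => rfl
     invFun := fun x => ((x.1.1, x.2), x.1.2)
     left_inv := fun x => rfl
     right_inv := fun x => rfl }, fun x => rfl⟩

lemma sim_unique {α V : Type} [Unique α] [AddCommGroup V] [Module F V] (A : Module.End F V) :
    Sim (piMap α A) A := ⟨LinearEquiv.funUnique α F V, fun v => rfl⟩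

lemma sol_of_unit {V : Type} [AddCommGroup V] [Module F V] {k : ℕ} {A : Module.End F V}
    (h : Sol k (LinearMap.prodMap (0 : Module.End F PUnit) A : Module.End F (PUnit × V))) :
    Sol k A :=
  h.sim ⟨LinearEquiv.uniqueProd, fun v => rfl⟩

/-- every component is large or highly repeated. -/
theorem good (k D M₁ : ℕ)
    (hC : ∀ h : F[X], h.Monic → D ≤ h.natDegree → Sol k (mx h))
    (hR : ∀ h : F[X], h.Monic → 1 ≤ h.natDegree → ∀ (α : Type) [Fintype α],
      M₁ ≤ Fintype.card α → Sol k (piMap α (mx h))) :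
    ∀ (n : ℕ) (ι : Type) [Fintype ι] (hh : ι → F[X]), Fintype.card ι = n →
      (∀ i, (hh i).Monic) →
      (∀ i, D ≤ (hh i).natDegree ∨ (hh i).natDegree = 0 ∨ M₁ ≤ Nat.card {j // hh j = hh i}) →
      Sol k (Dir hh) := by
  classical
  intro n
  induction n using Nat.strong_induction_on with
  | _ n ih =>
    intro ι _ hh hn hm hg
    rcases isEmpty_or_nonempty ι with hι | ⟨⟨i0⟩⟩
    · have : Subsingleton (∀ i, AdjoinRoot (hh i)) := ⟨fun a b => funext fun i => (hι.false i).elim⟩
      exact (solP_subsingleton k (Dir hh) 1 1).sol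
    · refine Sol.sim (Dir.split hh (fun i => hh i = hh i0)).symm (Sol.prodMap ?_ ?_)
      · refine Sol.sim (Dir.fiber _ (hh i0) fun i => i.2).symm ?_
        rcases Nat.eq_zero_or_pos (hh i0).natDegree with h0 | h0
        · have := subsingleton_adj (hm i0) h0
          exact (solP_subsingleton k _ 1 1).sol
        rcases hg i0 with h | h | h
        · exact (hC _ (hm i0) h).pi _
        · omega
        · refine hR _ (hm i0) h0 _ ?_
          rw [← Nat.card_eq_fintype_card]; exact h
      · refine ih (Fintype.card {i // ¬ hh i = hh i0}) ?_ _ _ rfl (fun i => hm i) (fun i => ?_)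
        · rw [← hn]
          exact Fintype.card_subtype_lt (x := i0) (by simp)
        · rcases hg i with h | h | h
          · exact Or.inl h
          · exact Or.inr (Or.inl h)
          · right; right
            refine h.trans (le_of_eq ?_)
            symm
            exact Nat.card_congr (Equiv.subtypeSubtypeEquivSubtype
              (p := fun j => ¬ hh j = hh i0) (q := fun j => hh j = hh i)
              (fun {x} hx hx' => i.2 (hx.symm.trans hx')))

lemma finite_deg [Finite F] (D : ℕ) : {p : F[X] | p.natDegree < D}.Finite := by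
  refine Set.Finite.subset (Set.finite_range
    (fun f : Fin D → F => ∑ i : Fin D, C (f i) * X ^ (i : ℕ))) ?_
  intro p hp
  refine ⟨fun i => p.coeff i, ?_⟩
  conv_rhs => rw [p.as_sum_range_C_mul_X_pow' (show p.natDegree < D from hp)]
  rw [Finset.sum_range]

lemma count_bound [Finite F] (D M : ℕ) (ι : Type) [Fintype ι] (hh : ι → F[X])
    (hD : ∀ i, (hh i).natDegree < D)
    (hM : ∀ i, 1 ≤ (hh i).natDegree → Nat.card {j // hh j = hh i} ≤ M) :
    ∑ i, (hh i).natDegree ≤ (finite_deg (F := F) D).toFinset.card * (M * D) := by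
  classical
  have h1 : ∀ i ∈ (Finset.univ : Finset ι), hh i ∈ (finite_deg (F := F) D).toFinset := by
    intro i _
    rw [Set.Finite.mem_toFinset]; exact hD i
  rw [← Finset.sum_fiberwise_of_maps_to h1]
  refine Finset.sum_le_card_nsmul _ _ _ fun g hg => ?_
  rw [Finset.sum_congr rfl (g := fun _ => g.natDegree)
    (fun i hi => by rw [(Finset.mem_filter.1 hi).2]), Finset.sum_const, smul_eq_mul]
  rcases Nat.eq_zero_or_pos g.natDegree with h0 | h0
  · rw [h0, mul_zero]; exact Nat.zero_le _
  rcases Finset.eq_empty_or_nonempty (Finset.univ.filter (fun i => hh i = g)) with he | ⟨i0, hi0⟩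
  · rw [he, Finset.card_empty, zero_mul]; exact Nat.zero_le _
  · have hi1 := (Finset.mem_filter.1 hi0).2
    have h2 := hM i0 (by rw [hi1]; exact h0)
    rw [Nat.card_eq_fintype_card, Fintype.card_subtype, hi1] at h2
    have h3 := hD i0
    rw [hi1] at h3
    exact Nat.mul_le_mul h2 h3.le

lemma finrank_dir {ι : Type} [Fintype ι] (hh : ι → F[X]) (hm : ∀ i, (hh i).Monic) :
    Module.finrank F (∀ i, AdjoinRoot (hh i)) = ∑ i, (hh i).natDegree := by
  have := fun i => fd_adj (hm i)
  rw [Module.finrank_pi_fintype]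
  exact Finset.sum_congr rfl fun i _ => finrank_adj (hm i)

end dir

theorem dirSol (k : ℕ) (hk : 1 ≤ k) (F : Type) [Field F] [Fintype F] :
    ∃ n₀ : ℕ, ∀ (ι : Type) [Fintype ι] (hh : ι → F[X]), (∀ i, (hh i).Monic) →
      n₀ ≤ ∑ i, (hh i).natDegree → Sol k (Dir hh) := by
  classical
  obtain ⟨D, hD⟩ := absCyc k hk F 0
  obtain ⟨M₁, hM₁⟩ := absRep k hk F 0
  have hC : ∀ h : F[X], h.Monic → D ≤ h.natDegree → Sol k (mx h) := fun h hm hd =>
    sol_of_unit (hD PUnit (Module.finrank_zero_of_subsingleton).le 0 h hm hd)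
  have hR : ∀ h : F[X], h.Monic → 1 ≤ h.natDegree → ∀ (α : Type) [Fintype α],
      M₁ ≤ Fintype.card α → Sol k (piMap α (mx h)) := fun h hm hd α _ hα =>
    sol_of_unit (hM₁ PUnit (Module.finrank_zero_of_subsingleton).le 0 h hm hd α hα)
  set b₀ : ℕ := (finite_deg (F := F) D).toFinset.card * (M₁ * D) with hb₀
  obtain ⟨N₂, hN₂⟩ := absCyc k hk F b₀
  obtain ⟨M₂, hM₂⟩ := absRep k hk F b₀
  refine ⟨(finite_deg (F := F) N₂).toFinset.card * (M₂ * N₂) + 1, fun ι _ hh hm hsum => ?_⟩
  -- the rest
  have rest : ∀ (κ : Type) [Fintype κ] (gg : κ → F[X]), (∀ i, (gg i).Monic) →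
      ∀ (W : Type) [AddCommGroup W] [Module F W] (B : Module.End F W),
      (∀ (V : Type) [AddCommGroup V] [Module F V] [FiniteDimensional F V],
        Module.finrank F V ≤ b₀ → ∀ A : Module.End F V,
          Sol k (LinearMap.prodMap A B : Module.End F (V × W))) →
      Sol k (LinearMap.prodMap (Dir gg) B : Module.End F ((∀ i, AdjoinRoot (gg i)) × W)) := by
    intro κ _ gg hgm W _ _ B hB
    let bad : κ → Prop := fun i => 1 ≤ (gg i).natDegree ∧ (gg i).natDegree < D ∧
      Nat.card {j // gg j = gg i} < M₁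
    have h1 := Dir.split gg bad
    have hbfr : Module.finrank F (∀ i : {i // bad i}, AdjoinRoot (gg i)) ≤ b₀ := by
      rw [finrank_dir (fun i : {i // bad i} => gg i) (fun i => hgm i)]
      refine count_bound D M₁ _ _ (fun i => i.2.2.1) (fun i _ => ?_)
      refine le_trans ?_ i.2.2.2.le
      exact Nat.card_le_card_of_injective
        (fun j : {j : {i // bad i} // gg j = gg i} => (⟨j.1.1, j.2⟩ : {j // gg j = gg i}))
        (fun a b hab => by
          have := congrArg (fun x : {j // gg j = gg i} => x.1) hab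
          exact Subtype.ext (Subtype.ext this))
    have hgood : Sol k (Dir (fun i : {i // ¬ bad i} => gg i)) := by
      refine good k D M₁ hC hR _ _ _ rfl (fun i => hgm i) (fun i => ?_)
      by_cases e1 : (gg i).natDegree = 0
      · exact Or.inr (Or.inl e1)
      by_cases e2 : D ≤ (gg i).natDegree
      · exact Or.inl e2
      right; right
      have e3 : M₁ ≤ Nat.card {j // gg j = gg i} := by
        by_contra hcon
        exact i.2 ⟨by omega, by omega, by omega⟩
      refine e3.trans (le_of_eq ?_)
      symm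
      refine Nat.card_congr (Equiv.subtypeSubtypeEquivSubtype
        (p := fun j => ¬ bad j) (q := fun j => gg j = gg i) (fun {x} hx hx' => ?_))
      apply i.2
      have hx2 : 1 ≤ (gg x).natDegree ∧ (gg x).natDegree < D ∧
        Nat.card {j // gg j = gg x} < M₁ := hx'
      rw [hx] at hx2
      exact hx2
    have := fun i : {i // bad i} => fd_adj (hgm i)
    have h2 := hB (∀ i : {i // bad i}, AdjoinRoot (gg i)) hbfr
      (Dir (fun i : {i // bad i} => gg i))
    have h3 := (h2.prodMap hgood).sim (sim_rearrange _ _ _)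
    exact h3.sim (h1.symm.prodMap (Sim.refl B))
  by_cases hbig : ∃ i0, N₂ ≤ (hh i0).natDegree
  · obtain ⟨i0, hi0⟩ := hbig
    have h1 := rest {i // ¬ i = i0} (fun i => hh i) (fun i => hm i) (AdjoinRoot (hh i0))
      (mx (hh i0)) (fun V _ _ _ hV A => hN₂ V hV A (hh i0) (hm i0) hi0)
    have h2 : Sim (Dir (fun i : {i // i = i0} => hh i)) (mx (hh i0)) :=
      (Dir.fiber _ (hh i0) (fun i => by rw [i.2])).trans (sim_unique _)
    exact h1.sim (((Sim.comm _ _).trans (h2.symm.prodMap (Sim.refl _))).trans
      (Dir.split hh (fun i => i = i0)).symm)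
  · push Not at hbig
    by_cases hrep : ∃ i0, 1 ≤ (hh i0).natDegree ∧ M₂ < Nat.card {j // hh j = hh i0}
    · obtain ⟨i0, hd0, hi0⟩ := hrep
      have h1 := rest {i // ¬ hh i = hh i0} (fun i => hh i) (fun i => hm i)
        ({i // hh i = hh i0} → AdjoinRoot (hh i0)) (piMap _ (mx (hh i0)))
        (fun V _ _ _ hV A => hM₂ V hV A (hh i0) (hm i0) hd0 _ (by
          rw [← Nat.card_eq_fintype_card]; exact hi0.le))
      have h2 : Sim (Dir (fun i : {i // hh i = hh i0} => hh i)) (piMap _ (mx (hh i0))) :=
        Dir.fiber _ (hh i0) (fun i => i.2)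
      exact h1.sim (((Sim.comm _ _).trans (h2.symm.prodMap (Sim.refl _))).trans
        (Dir.split hh (fun i => hh i = hh i0)).symm)
    · exfalso
      push Not at hrep
      have := count_bound N₂ M₂ ι hh hbig hrep
      omega

end Pool.Agent.H709L
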