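import Pool.Agent.H709L.Dir

set_option autoImplicit false

/-!
Larsen's conjecture: assembly.
-/

namespace Pool.Agent.H709L

open Polynomial DirectSum

lemma quot_smul {F : Type} [Field F] (h : F[X]) (c : F) (x : F[X] ⧸ Ideal.span {h}) :
    (C c • x : F[X] ⧸ Ideal.span {h}) = (c • (x : AdjoinRoot h) : AdjoinRoot h) := by
  obtain ⟨p, rfl⟩ := Ideal.Quotient.mk_surjective x
  show AdjoinRoot.mk h (C c * p) = c • AdjoinRoot.mk h p
  rw [AdjoinRoot.smul_mk, smul_eq_C_mul]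

lemma quot_X {F : Type} [Field F] (h : F[X]) (x : F[X] ⧸ Ideal.span {h}) :
    ((X : F[X]) • x : F[X] ⧸ Ideal.span {h}) = mx h (x : AdjoinRoot h) := by
  obtain ⟨p, rfl⟩ := Ideal.Quotient.mk_surjective x
  show AdjoinRoot.mk h (X * p) = mx h (AdjoinRoot.mk h p)
  rw [mx_mk]

/-- every operator is a direct sum of cyclic operators. -/
lemma exists_dir {F : Type} [Field F] {V : Type} [AddCommGroup V] [Module F V]
    [FiniteDimensional F V] (A : Module.End F V) :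
    ∃ (ι : Type) (_ : Fintype ι) (hh : ι → F[X]), (∀ i, (hh i).Monic) ∧ Sim A (Dir hh) := by
  classical
  have tors : Module.IsTorsion F[X] (Module.AEval' A) :=
    Module.AEval.isTorsion_of_finiteDimensional F V A
  obtain ⟨ι, hι, p, hp, e, ⟨l⟩⟩ := Module.equiv_directSum_of_isTorsion tors
  let q : ι → F[X] := fun i => p i ^ e i
  have hq : ∀ i, q i ≠ 0 := fun i => pow_ne_zero _ (hp i).ne_zero
  let hh : ι → F[X] := fun i => q i * C (q i).leadingCoeff⁻¹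
  have hm : ∀ i, (hh i).Monic := fun i => monic_mul_leadingCoeff_inv (hq i)
  have hspan : ∀ i, (Ideal.span {q i} : Ideal F[X]) = Ideal.span {hh i} := by
    intro i
    have hu : IsUnit (C (q i).leadingCoeff⁻¹ : F[X]) :=
      isUnit_C.2 (inv_ne_zero (leadingCoeff_ne_zero.2 (hq i))).isUnit
    exact (Ideal.span_singleton_mul_right_unit hu (q i)).symm
  let ψ : Module.AEval' A ≃ₗ[F[X]] (∀ i, F[X] ⧸ Ideal.span {hh i}) :=
    (l.trans (DirectSum.linearEquivFunOnFintype F[X] ι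
      (fun i => F[X] ⧸ (Ideal.span {q i} : Ideal F[X])))).trans
      (LinearEquiv.piCongrRight fun i => Submodule.quotEquivOfEq _ _ (hspan i))
  let ofA := Module.AEval'.of A
  let Φ : V ≃ₗ[F] (∀ i, AdjoinRoot (hh i)) :=
    { toFun := fun v => ψ (ofA v)
      map_add' := fun v w => by
        show ψ (ofA (v + w)) = ψ (ofA v) + ψ (ofA w)
        rw [map_add, map_add]
      map_smul' := fun c v => by
        funext i
        have h1 : ofA (c • v) = (C c : F[X]) • ofA v := by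
          rw [map_smul]
          exact (Module.AEval.C_smul A c (ofA v)).symm
        show ψ (ofA (c • v)) i = c • (ψ (ofA v) i : AdjoinRoot (hh i))
        rw [h1, map_smul]
        exact quot_smul (hh i) c _
      invFun := fun f => ofA.symm (ψ.symm f)
      left_inv := fun v => by
        show ofA.symm (ψ.symm (ψ (ofA v))) = v
        rw [ψ.symm_apply_apply, ofA.symm_apply_apply]
      right_inv := fun f => by
        show ψ (ofA (ofA.symm (ψ.symm f))) = f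
        rw [ofA.apply_symm_apply, ψ.apply_symm_apply] }
  refine ⟨ι, hι, hh, hm, Φ, fun v => ?_⟩
  funext i
  rw [Dir_apply]
  show ψ (ofA (A v)) i = mx (hh i) (ψ (ofA v) i : AdjoinRoot (hh i))
  have h1 : ofA (A v) = (X : F[X]) • ofA v := (Module.AEval'.X_smul_of A v).symm
  rw [h1, map_smul]
  exact quot_X (hh i) _

lemma mat_of_sol {F : Type} [Field F] {n k : ℕ} (A : Matrix (Fin n) (Fin n) F)
    (h : Sol k (Matrix.toLinAlgEquiv' A : Module.End F (Fin n → F))) :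
    ∃ X Y : Matrix (Fin n) (Fin n) F, A = X ^ k + Y ^ k := by
  obtain ⟨L, U, h1, ⟨X, rfl⟩, ⟨Y, rfl⟩⟩ := h
  refine ⟨Matrix.toLinAlgEquiv'.symm X, Matrix.toLinAlgEquiv'.symm Y, ?_⟩
  rw [← map_pow, ← map_pow, ← map_add, ← h1, AlgEquiv.symm_apply_apply]

theorem fixedField (k : ℕ) (hk : 1 ≤ k) (F : Type) [Field F] [Fintype F] :
    ∃ n₀ : ℕ, ∀ n ≥ n₀, ∀ A : Matrix (Fin n) (Fin n) F,
      ∃ X Y : Matrix (Fin n) (Fin n) F, A = X ^ k + Y ^ k := by
  obtain ⟨n₀, hn₀⟩ := dirSol k hk F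
  refine ⟨n₀, fun n hn A => mat_of_sol A ?_⟩
  obtain ⟨ι, _, hh, hm, hs⟩ := exists_dir (Matrix.toLinAlgEquiv' A : Module.End F (Fin n → F))
  refine Sol.sim hs.symm (hn₀ ι hh hm ?_)
  obtain ⟨e, -⟩ := hs
  rw [← finrank_dir hh hm, ← e.finrank_eq, Module.finrank_fin_fun]
  exact hn

theorem largeField (k : ℕ) (hk : 1 ≤ k) : ∃ Q₀ : ℕ, ∀ (F : Type) [Field F] [Fintype F],
    Q₀ ≤ Fintype.card F → ∀ (n : ℕ) (A : Matrix (Fin n) (Fin n) F),
      ∃ X Y : Matrix (Fin n) (Fin n) F, A = X ^ k + Y ^ k := by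
  obtain ⟨Q₀, hQ₀⟩ := large k hk
  refine ⟨Q₀, fun F _ _ hF n A => mat_of_sol A ?_⟩
  obtain ⟨ι, _, hh, hm, hs⟩ := exists_dir (Matrix.toLinAlgEquiv' A : Module.End F (Fin n → F))
  refine Sol.sim hs.symm ?_
  exact good k 0 0 (fun h hm _ => hQ₀ F hF h hm) (fun h hm _ α _ _ => (hQ₀ F hF h hm).pi α) _ ι hh
    rfl hm (fun i => Or.inl (Nat.zero_le _))

theorem smallField (k : ℕ) (hk : 1 ≤ k) (q : ℕ) : ∃ n₀ : ℕ, ∀ (F : Type) [Field F] [Fintype F],
    Fintype.card F = q → ∀ n ≥ n₀, ∀ A : Matrix (Fin n) (Fin n) F,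
      ∃ X Y : Matrix (Fin n) (Fin n) F, A = X ^ k + Y ^ k := by
  by_cases h : ∃ (F₀ : Type) (_ : Field F₀) (_ : Fintype F₀), Fintype.card F₀ = q
  · obtain ⟨F₀, _, _, hF₀⟩ := h
    obtain ⟨n₀, hn₀⟩ := fixedField k hk F₀
    refine ⟨n₀, fun F _ _ hF n hn A => ?_⟩
    let φ : F ≃+* F₀ := FiniteField.ringEquivOfCardEq (hF.trans hF₀.symm)
    let Φ : Matrix (Fin n) (Fin n) F ≃+* Matrix (Fin n) (Fin n) F₀ := φ.mapMatrix
    obtain ⟨X, Y, hXY⟩ := hn₀ n hn (Φ A)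
    refine ⟨Φ.symm X, Φ.symm Y, ?_⟩
    rw [← map_pow, ← map_pow, ← map_add, ← hXY, RingEquiv.symm_apply_apply]
  · exact ⟨0, fun F i1 i2 hF => (h ⟨F, i1, i2, hF⟩).elim⟩

/-- Larsen's conjecture. -/
theorem larsen (k : ℕ) (hk : 1 ≤ k) : ∃ N : ℕ, ∀ (n : ℕ) (F : Type) [Field F] [Fintype F],
    N ≤ Fintype.card F ^ (n ^ 2) →
      ∀ A : Matrix (Fin n) (Fin n) F, ∃ X Y : Matrix (Fin n) (Fin n) F, A = X ^ k + Y ^ k := by
  obtain ⟨Q₀, hQ₀⟩ := largeField k hk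
  choose n₀ hn₀ using smallField k hk
  set n₁ : ℕ := ∑ q ∈ Finset.range Q₀, n₀ q with hn₁
  refine ⟨Q₀ ^ (n₁ ^ 2) + 1, fun n F _ _ hN A => ?_⟩
  by_cases hq : Q₀ ≤ Fintype.card F
  · exact hQ₀ F hq n A
  · push Not at hq
    refine hn₀ _ F rfl n ?_ A
    by_contra hcon
    push Not at hcon
    have h1 : n₀ (Fintype.card F) ≤ n₁ :=
      Finset.single_le_sum (f := n₀) (fun _ _ => Nat.zero_le _) (Finset.mem_range.2 hq)
    have h2 : n ^ 2 ≤ n₁ ^ 2 := Nat.pow_le_pow_left (by omega) 2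
    have h3 : Fintype.card F ^ (n ^ 2) ≤ Q₀ ^ (n ^ 2) := Nat.pow_le_pow_left hq.le _
    have h4 : Q₀ ^ (n ^ 2) ≤ Q₀ ^ (n₁ ^ 2) := Nat.pow_le_pow_right (by omega) h2
    omega

end Pool.Agent.H709L
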