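import Pool.Agent.H709L.Api

set_option autoImplicit false

/-!
A normal form for cyclic operators with a large scalar diagonal block.
-/

namespace Pool.Agent.H709L

open Polynomial

section nf

variable {F : Type} [Field F]

/-- multiplication by the root. -/
noncomputable def mx (h : F[X]) : Module.End F (AdjoinRoot h) :=
  Algebra.lmul F (AdjoinRoot h) (AdjoinRoot.root h)

lemma mx_mk (h p : F[X]) : mx h (AdjoinRoot.mk h p) = AdjoinRoot.mk h (X * p) := by
  rw [map_mul, AdjoinRoot.mk_X]; rfl

/-- division by a monic polynomial as a linear map. -/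
noncomputable def dv {g : F[X]} (hg : g.Monic) : F[X] →ₗ[F] F[X] where
  toFun p := p /ₘ g
  map_add' p q := by
    have h0 : g ≠ 0 := hg.ne_zero
    apply mul_left_cancel₀ h0
    have h1 := modByMonic_add_div (p + q) g
    have h2 := modByMonic_add_div p g
    have h3 := modByMonic_add_div q g
    rw [add_modByMonic] at h1
    linear_combination h1 - h2 - h3
  map_smul' c p := by
    have h0 : g ≠ 0 := hg.ne_zero
    apply mul_left_cancel₀ h0
    have h1 := modByMonic_add_div (c • p) g
    have h2 := modByMonic_add_div p g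
    rw [smul_modByMonic] at h1
    simp only [RingHom.id_apply]
    simp only [smul_eq_C_mul] at h1 ⊢
    linear_combination h1 - C c * h2

lemma dv_apply {g : F[X]} (hg : g.Monic) (p : F[X]) : dv hg p = p /ₘ g := rfl

lemma dv_mul {g : F[X]} (hg : g.Monic) (p : F[X]) : dv hg (g * p) = p :=
  mul_divByMonic_cancel_left p hg

/-- division of `q * ρ` by `g`. -/
noncomputable def dl {g : F[X]} (hg : g.Monic) (ρ : F[X]) : F[X] →ₗ[F] F[X] :=
  (dv hg).comp (LinearMap.mulRight F ρ)

lemma dl_apply {g : F[X]} (hg : g.Monic) (ρ q : F[X]) : dl hg ρ q = dv hg (q * ρ) := rfl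

lemma dl_C {g : F[X]} (hg : g.Monic) {ρ : F[X]} (hρ : ρ.degree < g.degree) (a : F) :
    dl hg ρ (C a) = 0 := by
  rw [dl_apply, dv_apply, divByMonic_eq_zero_iff hg]
  refine lt_of_le_of_lt ?_ hρ
  rw [degree_mul]
  calc (C a).degree + ρ.degree ≤ 0 + ρ.degree := by gcongr; exact degree_C_le
    _ = ρ.degree := zero_add _

lemma dv_const {g : F[X]} (hg : g.Monic) {p : F[X]} (hp : p.natDegree ≤ g.natDegree) :
    ∃ a : F, dv hg p = C a := by
  refine ⟨(p /ₘ g).coeff 0, ?_⟩
  apply eq_C_of_natDegree_eq_zero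
  rw [dv_apply, natDegree_divByMonic p hg]
  omega

lemma dl_X {g : F[X]} (hg : g.Monic) (ρ q : F[X]) :
    ∃ a : F, X * dl hg ρ q = dl hg ρ (X * q) + C a := by
  have h1 := modByMonic_add_div (q * ρ) g
  have h2 : dl hg ρ (X * q) = X * dl hg ρ q + dv hg (X * ((q * ρ) %ₘ g)) := by
    rw [dl_apply]
    have : X * q * ρ = g * (X * dl hg ρ q) + X * ((q * ρ) %ₘ g) := by
      rw [dl_apply, dv_apply]
      linear_combination (-X) * h1
    rw [this, map_add, dv_mul]
  obtain ⟨a, ha⟩ : ∃ a : F, dv hg (X * ((q * ρ) %ₘ g)) = C a := by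
    by_cases hg1 : g = 1
    · refine ⟨0, ?_⟩
      subst hg1
      simp
    · apply dv_const
      have h3 := natDegree_modByMonic_lt (q * ρ) hg hg1
      have h4 := natDegree_mul_le (p := (X : F[X])) (q := (q * ρ) %ₘ g)
      rw [natDegree_X] at h4
      omega
  refine ⟨-a, ?_⟩
  rw [h2, ha, C_neg]; ring

lemma dl_natDegree {g : F[X]} (hg : g.Monic) {ρ : F[X]} (hρ : ρ.natDegree ≤ g.natDegree)
    (q : F[X]) : (dl hg ρ q).natDegree ≤ q.natDegree := by
  rw [dl_apply, dv_apply, natDegree_divByMonic _ hg]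
  have := natDegree_mul_le (p := q) (q := ρ)
  omega

lemma finrank_adj {h : F[X]} (hm : h.Monic) : Module.finrank F (AdjoinRoot h) = h.natDegree := by
  rw [(AdjoinRoot.powerBasis' hm).finrank]; rfl

lemma fd_adj {h : F[X]} (hm : h.Monic) : FiniteDimensional F (AdjoinRoot h) :=
  (AdjoinRoot.powerBasis' hm).finite

instance (n : ℕ) : FiniteDimensional F (degreeLT F n) :=
  Module.Finite.equiv (degreeLTEquiv F n).symm

lemma finrank_dlt (n : ℕ) : Module.finrank F (degreeLT F n) = n := by
  rw [(degreeLTEquiv F n).finrank_eq, Module.finrank_fin_fun]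

theorem nf (h h2 : F[X]) (hm : h.Monic) (h2m : h2.Monic) (c d : F) (M : ℕ) (hM : 1 ≤ M)
    (hN : h.natDegree = (2 * M - 1) + h2.natDegree) (hN2 : 2 * M - 2 ≤ h2.natDegree)
    (hN2' : 1 ≤ h2.natDegree)
    (htr : ((X - C c) * ((X - C c) * (X - C d)) ^ (M - 1) * h2 - h).degree
      < ((h.natDegree - 1 : ℕ) : WithBot ℕ)) :
    Cmp (mx h) (c • (1 : Module.End F (degreeLT F M)))
      (LinearMap.prodMap (d • (1 : Module.End F (degreeLT F (M - 1)))) (mx h2) :
        Module.End F (degreeLT F (M - 1) × AdjoinRoot h2)) := by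
  set π : F[X] := (X - C c) * (X - C d) with hπ
  have πm : π.Monic := (monic_X_sub_C c).mul (monic_X_sub_C d)
  have πd : π.natDegree = 2 := by
    rw [hπ, (monic_X_sub_C c).natDegree_mul (monic_X_sub_C d), natDegree_X_sub_C, natDegree_X_sub_C]
  set τ : F[X] := π ^ (M - 1) with hτ
  have τm : τ.Monic := πm.pow _
  have τd : τ.natDegree = 2 * M - 2 := by
    rw [hτ, πm.natDegree_pow, πd]; omega
  set h1 : F[X] := (X - C c) * τ with hh1
  have h1m : h1.Monic := (monic_X_sub_C c).mul τm
  have h1d : h1.natDegree = 2 * M - 1 := by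
    rw [hh1, (monic_X_sub_C c).natDegree_mul τm, natDegree_X_sub_C, τd]; omega
  set ρ : F[X] := h1 * h2 - h with hρ
  set ρ1 : F[X] := ρ /ₘ τ with hρ1
  set ρ0 : F[X] := ρ %ₘ τ with hρ0
  have hρs : τ * ρ1 + ρ0 = ρ := by
    have := modByMonic_add_div ρ τ
    rw [hρ1, hρ0]; linear_combination this
  have h2deg : h2.degree = (h2.natDegree : WithBot ℕ) := degree_eq_natDegree h2m.ne_zero
  have hρ1d : ρ1.degree < h2.degree := by
    rw [h2deg]
    by_cases h0 : ρ1 = 0
    · rw [h0, degree_zero]; exact WithBot.bot_lt_coe _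
    · rw [← natDegree_lt_iff_degree_lt h0, hρ1, natDegree_divByMonic _ τm, τd]
      have hρ0' : ρ ≠ 0 := by
        intro hh; apply h0; rw [hρ1, hh, zero_divByMonic]
      have := (natDegree_lt_iff_degree_lt hρ0').2 htr
      omega
  have hρ0d : ρ0.degree < h2.degree := by
    rw [h2deg]
    refine lt_of_lt_of_le (degree_modByMonic_lt ρ τm) ?_
    rw [degree_eq_natDegree τm.ne_zero, τd]
    exact_mod_cast hN2
  have hρ1n : ρ1.natDegree ≤ h2.natDegree := natDegree_le_natDegree hρ1d.le
  have hρ0n : ρ0.natDegree ≤ h2.natDegree := natDegree_le_natDegree hρ0d.le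
  -- the map iota
  let ιm : F[X] →ₗ[F] F[X] := LinearMap.mulRight F h1 - (LinearMap.mulLeft F τ).comp (dl h2m ρ1)
    - dl h2m ρ0
  have ιa : ∀ q, ιm q = q * h1 - τ * dl h2m ρ1 q - dl h2m ρ0 q := fun q => rfl
  have ιC : ∀ a : F, ιm (C a) = C a * h1 := by
    intro a
    rw [ιa, dl_C h2m hρ1d, dl_C h2m hρ0d]; ring
  have ιX : ∀ q, ∃ a b : F, X * ιm q = ιm (X * q) + τ * C a + C b := by
    intro q
    obtain ⟨a, ha⟩ := dl_X h2m ρ1 q
    obtain ⟨b, hb⟩ := dl_X h2m ρ0 q
    refine ⟨-a, -b, ?_⟩
    rw [ιa, ιa, C_neg, C_neg]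
    linear_combination (-τ) * ha - hb
  have ιh : ∀ a : F, ιm (h2 * C a) = C a * h := by
    intro a
    rw [ιa, dl_apply, dl_apply, show h2 * C a * ρ1 = h2 * (C a * ρ1) by ring,
      show h2 * C a * ρ0 = h2 * (C a * ρ0) by ring, dv_mul, dv_mul]
    have : h = h1 * h2 - (τ * ρ1 + ρ0) := by rw [hρs, hρ]; ring
    rw [this]; ring
  have ιd : ∀ q, q ≠ 0 → ιm q ≠ 0 ∧ (ιm q).natDegree = q.natDegree + (2 * M - 1) := by
    intro q hq
    have e1 : (q * h1).natDegree = q.natDegree + (2 * M - 1) := by
      rw [natDegree_mul hq h1m.ne_zero, h1d]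
    have e2 : (τ * dl h2m ρ1 q + dl h2m ρ0 q).natDegree < (q * h1).natDegree := by
      rw [e1]
      refine lt_of_le_of_lt (natDegree_add_le _ _) (max_lt ?_ ?_)
      · have := natDegree_mul_le (p := τ) (q := dl h2m ρ1 q)
        have := dl_natDegree h2m hρ1n q
        omega
      · have := dl_natDegree h2m hρ0n q
        omega
    have e3 : ιm q = q * h1 - (τ * dl h2m ρ1 q + dl h2m ρ0 q) := by rw [ιa]; ring
    have e4 : (ιm q).natDegree = (q * h1).natDegree := by
      rw [e3]; exact natDegree_sub_eq_left_of_natDegree_lt e2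
    refine ⟨?_, e4.trans e1⟩
    intro h0
    rw [h0, natDegree_zero, e1] at e4
    omega
  let rep : AdjoinRoot h2 →ₗ[F] F[X] := AdjoinRoot.modByMonicHom h2m
  have rep_mk : ∀ p, rep (AdjoinRoot.mk h2 p) = p %ₘ h2 := fun p => AdjoinRoot.modByMonicHom_mk h2m p
  have mk_rep : ∀ z, AdjoinRoot.mk h2 (rep z) = z := AdjoinRoot.mk_leftInverse h2m
  have rep_deg : ∀ z, (rep z).degree < h2.degree := by
    intro z
    rw [← mk_rep z, rep_mk]
    exact degree_modByMonic_lt _ h2m
  -- the map to polynomials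
  let Ψ : (degreeLT F M × (degreeLT F (M - 1) × AdjoinRoot h2)) →ₗ[F] F[X] :=
    ((aeval π).toLinearMap.comp (degreeLT F M).subtype).coprod
      (((LinearMap.mulLeft F (X - C c)).comp
        ((aeval π).toLinearMap.comp (degreeLT F (M - 1)).subtype)).coprod (ιm.comp rep))
  have Ψa : ∀ x y z, Ψ (x, (y, z)) = (x : F[X]).comp π + ((X - C c) * (y : F[X]).comp π
      + ιm (rep z)) := by
    intro x y z
    rfl
  have dX : ∀ x : degreeLT F M, ((x : F[X]).comp π).natDegree ≤ 2 * M - 2 := by
    intro x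
    rw [natDegree_comp, πd]
    by_cases h0 : (x : F[X]) = 0
    · rw [h0, natDegree_zero]; omega
    · have := (natDegree_lt_iff_degree_lt h0).2 (mem_degreeLT.1 x.2)
      omega
  have dY : ∀ y : degreeLT F (M - 1), ((X - C c) * (y : F[X]).comp π).natDegree ≤ 2 * M - 2 := by
    intro y
    by_cases h0 : (y : F[X]) = 0
    · rw [h0, zero_comp, mul_zero, natDegree_zero]; omega
    · have h1 := (natDegree_lt_iff_degree_lt h0).2 (mem_degreeLT.1 y.2)
      have h2 := natDegree_mul_le (p := X - C c) (q := (y : F[X]).comp π)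
      rw [natDegree_X_sub_C, natDegree_comp, πd] at h2
      omega
  have dZ : ∀ z : AdjoinRoot h2, (ιm (rep z)).natDegree < h.natDegree := by
    intro z
    by_cases h0 : rep z = 0
    · rw [h0, map_zero, natDegree_zero]; omega
    · rw [(ιd _ h0).2]
      have := rep_deg z
      rw [h2deg, ← natDegree_lt_iff_degree_lt h0] at this
      omega
  have Ψinj : ∀ v, Ψ v = 0 → v = 0 := by
    rintro ⟨x, y, z⟩ hv
    rw [Ψa] at hv
    have hz : rep z = 0 := by
      by_contra h0
      have e1 : ιm (rep z) = -((x : F[X]).comp π + (X - C c) * (y : F[X]).comp π) := by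
        linear_combination hv
      have e2 := (ιd _ h0).2
      rw [e1, natDegree_neg] at e2
      have e3 := natDegree_add_le ((x : F[X]).comp π) ((X - C c) * (y : F[X]).comp π)
      have := dX x
      have := dY y
      have := max_le (dX x) (dY y)
      omega
    have hz' : z = 0 := by rw [← mk_rep z, hz, map_zero]
    rw [hz, map_zero, add_zero] at hv
    have hy : (y : F[X]) = 0 := by
      by_contra h0
      have e1 : (X - C c) * (y : F[X]).comp π = -((x : F[X]).comp π) := by
        linear_combination hv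
      have e2 := congrArg natDegree e1
      have hyc : (y : F[X]).comp π ≠ 0 := by
        intro hh
        have := congrArg natDegree hh
        rcases comp_eq_zero_iff.1 hh with h3 | h3
        · exact h0 h3
        · have h4 := congrArg natDegree h3.2
          rw [πd, natDegree_C] at h4
          omega
      rw [natDegree_mul (monic_X_sub_C c).ne_zero hyc, natDegree_neg, natDegree_X_sub_C,
        natDegree_comp, natDegree_comp, πd] at e2
      omega
    rw [hy, zero_comp, mul_zero, add_zero] at hv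
    have hx : (x : F[X]) = 0 := by
      rcases comp_eq_zero_iff.1 hv with h3 | h3
      · exact h3
      · have h4 := congrArg natDegree h3.2
        rw [πd, natDegree_C] at h4
        omega
    refine Prod.ext (Subtype.ext hx) (Prod.ext (Subtype.ext hy) hz')
  have Ψd : ∀ v, (Ψ v).degree < h.degree := by
    rintro ⟨x, y, z⟩
    rw [Ψa, degree_eq_natDegree hm.ne_zero]
    refine lt_of_le_of_lt degree_le_natDegree ?_
    rw [Nat.cast_lt]
    have e1 := natDegree_add_le ((x : F[X]).comp π) ((X - C c) * (y : F[X]).comp π + ιm (rep z))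
    have e2 := natDegree_add_le ((X - C c) * (y : F[X]).comp π) (ιm (rep z))
    have := dX x
    have := dY y
    have := dZ z
    have e3 : max ((X - C c) * (y : F[X]).comp π).natDegree (ιm (rep z)).natDegree
        < h.natDegree := max_lt (by omega) (by omega)
    have e4 : max ((x : F[X]).comp π).natDegree
        ((X - C c) * (y : F[X]).comp π + ιm (rep z)).natDegree < h.natDegree :=
      max_lt (by omega) (by omega)
    omega
  let Φ : (degreeLT F M × (degreeLT F (M - 1) × AdjoinRoot h2)) →ₗ[F] AdjoinRoot h :=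
    (AdjoinRoot.mkₐ h).toLinearMap.comp Ψ
  have Φa : ∀ v, Φ v = AdjoinRoot.mk h (Ψ v) := fun v => rfl
  have Φinj : Function.Injective Φ := by
    rw [injective_iff_map_eq_zero]
    intro v hv
    rw [Φa, AdjoinRoot.mk_eq_zero] at hv
    exact Ψinj v (eq_zero_of_dvd_of_degree_lt hv (Ψd v))
  have := fd_adj hm
  have := fd_adj h2m
  have hfr : Module.finrank F (degreeLT F M × (degreeLT F (M - 1) × AdjoinRoot h2))
      = Module.finrank F (AdjoinRoot h) := by
    rw [Module.finrank_prod, Module.finrank_prod, finrank_dlt, finrank_dlt, finrank_adj hm,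
      finrank_adj h2m]
    omega
  refine ⟨Φ.linearEquivOfInjective Φinj hfr, ?_, ?_⟩
  · intro x
    set a : F := (x : F[X]).coeff (M - 1) with ha
    have hy : (x : F[X]) - C a * X ^ (M - 1) ∈ degreeLT F (M - 1) := by
      rw [mem_degreeLT, degree_lt_iff_coeff_zero]
      intro n hn
      rw [coeff_sub, coeff_C_mul, coeff_X_pow]
      by_cases hn' : n = M - 1
      · rw [hn', if_pos rfl, mul_one, sub_self]
      · rw [if_neg hn', mul_zero, sub_zero]
        exact (degree_lt_iff_coeff_zero _ _).1 (mem_degreeLT.1 x.2) n (by omega)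
    refine ⟨(⟨_, hy⟩, AdjoinRoot.mk h2 (C a)), ?_⟩
    rw [LinearMap.linearEquivOfInjective_apply, LinearMap.linearEquivOfInjective_apply, Φa, Φa,
      mx_mk]
    have e0 : (c • (1 : Module.End F (degreeLT F M))) x = c • x := rfl
    have e9 : Ψ (x, 0) = (x : F[X]).comp π + ((X - C c) * ((0 : degreeLT F (M - 1)) : F[X]).comp π
      + ιm (rep 0)) := Ψa x 0 0
    rw [e0, e9, Ψa]
    have e1 : rep (AdjoinRoot.mk h2 (C a)) = C a := by
      rw [rep_mk]
      apply (modByMonic_eq_self_iff h2m).2
      refine lt_of_le_of_lt degree_C_le ?_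
      rw [h2deg]; exact_mod_cast hN2'
    rw [e1, ιC, map_zero, map_zero]
    congr 1
    simp only [Submodule.coe_zero, zero_comp, mul_zero, add_zero, Submodule.coe_smul, smul_comp,
      sub_comp, mul_comp, C_comp, pow_comp, X_comp]
    rw [smul_eq_C_mul, ← hτ, hh1]
    ring
  · rintro ⟨y, z⟩
    obtain ⟨a, b, hab⟩ := ιX (rep z)
    have hx : X * (y : F[X]) + C a * X ^ (M - 1) + C b ∈ degreeLT F M := by
      refine Submodule.add_mem _ (Submodule.add_mem _ ?_ ?_) ?_
      · rw [mem_degreeLT, degree_mul, degree_X]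
        have := mem_degreeLT.1 y.2
        rcases eq_or_ne (y : F[X]) 0 with h0 | h0
        · rw [h0, degree_zero]; exact WithBot.bot_lt_coe _
        · have h5 := (natDegree_lt_iff_degree_lt h0).2 this
          rw [degree_eq_natDegree h0]
          have : 1 + (y : F[X]).natDegree < M := by omega
          exact_mod_cast this
      · rw [mem_degreeLT]
        refine lt_of_le_of_lt (degree_C_mul_X_pow_le _ _) ?_
        exact_mod_cast (by omega : M - 1 < M)
      · rw [mem_degreeLT]
        refine lt_of_le_of_lt degree_C_le ?_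
        exact_mod_cast hM
    refine ⟨⟨_, hx⟩, ?_⟩
    rw [LinearMap.linearEquivOfInjective_apply, LinearMap.linearEquivOfInjective_apply, Φa, Φa,
      mx_mk]
    have e0 : (LinearMap.prodMap (d • (1 : Module.End F (degreeLT F (M - 1)))) (mx h2) :
        Module.End F (degreeLT F (M - 1) × AdjoinRoot h2)) (y, z) = (d • y, mx h2 z) := rfl
    rw [e0, Ψa, Ψa]
    have e1 : mx h2 z = AdjoinRoot.mk h2 (X * rep z) := by
      conv_lhs => rw [← mk_rep z]
      rw [mx_mk]
    obtain ⟨l, hl⟩ : ∃ l : F, dv h2m (X * rep z) = C l := by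
      apply dv_const
      have h4 := natDegree_mul_le (p := (X : F[X])) (q := rep z)
      rw [natDegree_X] at h4
      rcases eq_or_ne (rep z) 0 with h0 | h0
      · rw [h0, mul_zero, natDegree_zero]; omega
      · have := rep_deg z
        rw [h2deg, ← natDegree_lt_iff_degree_lt h0] at this
        omega
    have e2 : rep (mx h2 z) = X * rep z - h2 * C l := by
      rw [e1, rep_mk, ← hl, dv_apply]
      have := modByMonic_add_div (X * rep z) h2
      linear_combination this
    rw [e2, map_sub, ιh]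
    have e3 : X * ((0 : degreeLT F M) : F[X]).comp π = 0 := by simp
    rw [AdjoinRoot.mk_eq_mk]
    refine ⟨C l, ?_⟩
    simp only [Submodule.coe_zero, zero_comp, Submodule.coe_smul, smul_comp, add_comp, mul_comp,
      C_comp, pow_comp, X_comp]
    rw [smul_eq_C_mul, ← hτ]
    have e4 : X * ιm (rep z) = ιm (X * rep z) + τ * C a + C b := hab
    rw [mul_add, mul_add, e4, hπ]
    ring

end nf

end Pool.Agent.H709L
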