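import Pool.Agent.H709L.Count
import Pool.Agent.H709L.Api

set_option autoImplicit false

/-!
Scalar operators, and nearly scalar diagonal operators, as sums of two `k`-th powers with annihilators
of large degree.
-/

namespace Pool.Agent.H709L

open Polynomial

lemma small_deg (F : Type) [Field F] [Fintype F] (s : ℕ) : ∃ B : ℕ, ∀ (K : Type) [Field K]
    [Fintype K] [Algebra F K] (S : Finset K),
    (∀ y ∈ S, (minpoly F y).natDegree ≤ s) → S.card ≤ B := by
  classical
  refine ⟨∑ j ∈ Finset.range s, Fintype.card F ^ (j + 1), fun K _ _ _ S hS => ?_⟩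
  have h1F : 1 < Fintype.card F := Fintype.one_lt_card
  have hsub : S ⊆ (Finset.range s).biUnion
      (fun j => ((X ^ (Fintype.card F ^ (j + 1)) - X : K[X]).roots).toFinset) := by
    intro y hy
    have hint : IsIntegral F y := Algebra.IsIntegral.isIntegral y
    obtain ⟨j, hj⟩ : ∃ j, (minpoly F y).natDegree = j + 1 :=
      ⟨(minpoly F y).natDegree - 1, by have := minpoly.natDegree_pos hint; omega⟩
    refine Finset.mem_biUnion.2 ⟨j, Finset.mem_range.2 (by have := hS y hy; omega), ?_⟩
    rw [Multiset.mem_toFinset, mem_roots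
      (FiniteField.X_pow_card_pow_sub_X_ne_zero K (Nat.succ_ne_zero j) h1F), IsRoot.def,
      eval_sub, eval_pow, eval_X, sub_eq_zero]
    -- the field generated by y
    let L := IntermediateField.adjoin F {y}
    have : Fintype L := Fintype.ofFinite L
    have hc : Fintype.card L = Fintype.card F ^ (j + 1) := by
      rw [Module.card_eq_pow_finrank (K := F) (V := L),
        IntermediateField.adjoin.finrank hint, hj]
    have hp := FiniteField.pow_card (IntermediateField.AdjoinSimple.gen F y)
    rw [hc] at hp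
    have := congrArg (algebraMap L K) hp
    rw [map_pow, IntermediateField.AdjoinSimple.algebraMap_gen] at this
    exact this
  calc S.card ≤ _ := Finset.card_le_card hsub
    _ ≤ ∑ j ∈ Finset.range s,
        (((X ^ (Fintype.card F ^ (j + 1)) - X : K[X]).roots).toFinset).card :=
        Finset.card_biUnion_le
    _ ≤ _ := Finset.sum_le_sum fun j _ => by
        refine (Multiset.toFinset_card_le _).trans ((card_roots' _).trans ?_)
        rw [FiniteField.X_pow_card_pow_sub_X_natDegree_eq K (Nat.succ_ne_zero j) h1F]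

lemma exists_ext (F : Type) [Field F] [Fintype F] (m : ℕ) (hm : 1 ≤ m) :
    ∃ (K : Type) (_ : Field K) (_ : Fintype K) (_ : Algebra F K),
      Module.finrank F K = m ∧ Fintype.card K = Fintype.card F ^ m := by
  obtain ⟨p, hp⟩ := CharP.exists F
  haveI : Fact p.Prime := ⟨CharP.char_is_prime F p⟩
  haveI : NeZero m := ⟨by omega⟩
  letI : Fintype (FiniteField.Extension F p m) := Fintype.ofFinite _
  refine ⟨FiniteField.Extension F p m, inferInstance, inferInstance, inferInstance,
    FiniteField.finrank_extension F p m, ?_⟩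
  rw [Module.card_eq_pow_finrank (K := F), FiniteField.finrank_extension F p m]

lemma card_bad {K : Type} [Field K] [Fintype K] [DecidableEq K] (t : K) (Y : Finset K)
    (p : K → Prop) [DecidablePred p] (B : ℕ) (hB : ∀ S : Finset K, (∀ y ∈ S, p y) → S.card ≤ B)
    (hY : 2 * B < Y.card) : ∃ y ∈ Y, ¬ p y ∧ ¬ p (t - y) := by
  by_contra hcon
  push Not at hcon
  have h1 : Y ⊆ (Y.filter p) ∪ (Y.filter (fun y => p (t - y))) := by
    intro y hy
    by_cases h : p y
    · exact Finset.mem_union_left _ (Finset.mem_filter.2 ⟨hy, h⟩)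
    · exact Finset.mem_union_right _ (Finset.mem_filter.2 ⟨hy, hcon y hy h⟩)
  have h2 : (Y.filter p).card ≤ B := hB _ fun y hy => (Finset.mem_filter.1 hy).2
  have h3 : (Y.filter (fun y => p (t - y))).card ≤ B := by
    have : (Y.filter (fun y => p (t - y))).card
        = ((Y.filter (fun y => p (t - y))).image (fun y => t - y)).card := by
      rw [Finset.card_image_of_injective]
      intro a b h
      exact sub_right_injective h
    rw [this]
    refine hB _ fun y hy => ?_
    obtain ⟨z, hz, rfl⟩ := Finset.mem_image.1 hy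
    exact (Finset.mem_filter.1 hz).2
  have := (Finset.card_le_card h1).trans (Finset.card_union_le _ _)
  omega

lemma lmul_pw {F K : Type} [Field F] [Field K] [Algebra F K] (k : ℕ) (a : K) :
    Pw k (Algebra.lmul F K (a ^ k)) := ⟨Algebra.lmul F K a, by rw [← map_pow]⟩

lemma aeval_lmul {F K : Type} [Field F] [Field K] [Algebra F K] (y : K) :
    aeval (Algebra.lmul F K y) (minpoly F y) = 0 := by
  rw [aeval_algHom_apply, minpoly.aeval, map_zero]

/-- scalars. -/
theorem T1 (k : ℕ) (hk : 1 ≤ k) (F : Type) [Field F] [Fintype F] (s : ℕ) :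
    ∃ m₁ : ℕ, ∀ m ≥ m₁, ∀ c : F, c ≠ 0 → ∃ P Q : F[X], Irreducible P ∧ Irreducible Q ∧
      s < P.natDegree ∧ s < Q.natDegree ∧
      ∀ (V : Type) [AddCommGroup V] [Module F V] [FiniteDimensional F V],
        Module.finrank F V = m → SolP k (c • (1 : Module.End F V)) P Q := by
  classical
  obtain ⟨B, hB⟩ := small_deg F s
  obtain ⟨Q₀, hQ₀⟩ := many k hk (2 * B)
  refine ⟨Q₀ + 1, fun m hm c hc => ?_⟩
  obtain ⟨K, _, _, _, hK1, hK2⟩ := exists_ext F m (by omega)
  have hcard : Q₀ ≤ Fintype.card K := by
    rw [hK2]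
    have h2 : 2 ≤ Fintype.card F := Fintype.one_lt_card
    calc Q₀ ≤ m := by omega
      _ ≤ 2 ^ m := Nat.lt_two_pow_self.le
      _ ≤ _ := Nat.pow_le_pow_left h2 m
  have ht : algebraMap F K c ≠ 0 := by
    rw [Ne, map_eq_zero]; exact hc
  obtain ⟨y, hy, hy1, hy2⟩ := card_bad (algebraMap F K c) _
    (fun y => (minpoly F y).natDegree ≤ s) B (hB K) (hQ₀ K hcard _ ht)
  rw [Finset.mem_filter, mem_kp, mem_kp] at hy
  obtain ⟨⟨α, -, hα⟩, ⟨β, -, hβ⟩⟩ := hy
  have hi : ∀ z : K, IsIntegral F z := fun z => Algebra.IsIntegral.isIntegral z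
  refine ⟨minpoly F y, minpoly F (algebraMap F K c - y), minpoly.irreducible (hi _),
    minpoly.irreducible (hi _), not_le.1 hy1, not_le.1 hy2, ?_⟩
  intro V _ _ _ hV
  have hS : SolP k (c • (1 : Module.End F K)) (minpoly F y) (minpoly F (algebraMap F K c - y)) := by
    refine ⟨Algebra.lmul F K y, Algebra.lmul F K (algebraMap F K c - y), ?_, ?_, ?_, aeval_lmul _,
      aeval_lmul _⟩
    · rw [← map_add, add_sub_cancel, AlgHom.commutes, Algebra.algebraMap_eq_smul_one]
    · rw [← hα]; exact lmul_pw k α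
    · rw [← hβ]; exact lmul_pw k β
  refine hS.sim ⟨LinearEquiv.ofFinrankEq K V (hK1.trans hV.symm), fun v => ?_⟩
  simp

end Pool.Agent.H709L
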