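import Pool.Agent.H709L.T

set_option autoImplicit false

namespace Pool.Agent.H709L

open Polynomial

section cyc

variable {F K : Type} [Field F] [Field K] [Algebra F K] [FiniteDimensional F K]

/-- the power basis of a generator. -/
noncomputable def pbas (w : K) (hw : (minpoly F w).natDegree = Module.finrank F K) :
    Module.Basis (Fin (minpoly F w).natDegree) F K :=
  haveI : Nonempty (Fin (minpoly F w).natDegree) :=
    ⟨⟨0, minpoly.natDegree_pos (Algebra.IsIntegral.isIntegral w)⟩⟩
  basisOfLinearIndependentOfCardEqFinrank (linearIndependent_pow w) (by simpa using hw)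

lemma pbas_apply (w : K) (hw : (minpoly F w).natDegree = Module.finrank F K)
    (i : Fin (minpoly F w).natDegree) : pbas w hw i = w ^ (i : ℕ) := by
  unfold pbas
  simp

lemma exists_poly (w : K) (hw : (minpoly F w).natDegree = Module.finrank F K) (b : K) :
    ∃ r : F[X], aeval w r = b := by
  refine ⟨∑ i, C ((pbas w hw).repr b i) * X ^ (i : ℕ), ?_⟩
  rw [map_sum]
  conv_rhs => rw [← (pbas w hw).sum_repr b]
  refine Finset.sum_congr rfl fun i _ => ?_
  rw [map_mul, aeval_C, map_pow, aeval_X, pbas_apply, Algebra.smul_def]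

lemma coord_aeval (w : K) (hw : (minpoly F w).natDegree = Module.finrank F K)
    (i : Fin (minpoly F w).natDegree) (g : F[X]) (hg : g.natDegree < (minpoly F w).natDegree) :
    (pbas w hw).coord i (aeval w g) = g.coeff i := by
  rw [aeval_eq_sum_range' hg, Finset.sum_range, map_sum]
  rw [Finset.sum_eq_single i]
  · rw [map_smul, ← pbas_apply w hw i, Module.Basis.coord_apply, Module.Basis.repr_self]
    simp
  · intro j _ hj
    rw [map_smul, ← pbas_apply w hw j, Module.Basis.coord_apply, Module.Basis.repr_self]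
    simp [hj]
  · simp

lemma trace_gen (w : K) (hw : (minpoly F w).natDegree = Module.finrank F K) :
    Algebra.trace F K w = -(minpoly F w).nextCoeff := by
  rw [trace_eq_finrank_mul_minpoly_nextCoeff]
  have h1 := Module.finrank_mul_finrank F (IntermediateField.adjoin F {w}) K
  rw [IntermediateField.adjoin.finrank (Algebra.IsIntegral.isIntegral w), hw] at h1
  have h2 : 0 < Module.finrank F K := Module.finrank_pos
  have h3 : Module.finrank (IntermediateField.adjoin F {w}) K = 1 := by
    apply Nat.eq_of_mul_eq_mul_left h2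
    rw [h1, mul_one]
  rw [h3]; simp

/-- nearly scalar operators on an extension field. -/
theorem nearly (k : ℕ) (y y₂ : K) (α β : K) (hα : α ^ k = y) (hβ : β ^ k = y₂)
    (hy : (minpoly F y).natDegree = Module.finrank F K)
    (hy₂ : (minpoly F y₂).natDegree = Module.finrank F K) (c : F)
    (hw : (minpoly F (algebraMap F K c - y)).natDegree = Module.finrank F K) :
    ∃ (l : K →ₗ[F] F) (r : K), l r = Algebra.trace F K (y + y₂) - Module.finrank F K • c ∧
      SolP k (c • (1 : Module.End F K) + l.smulRight r) (minpoly F y) (minpoly F y₂) := by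
  classical
  set w : K := algebraMap F K c - y with hwdef
  set m := Module.finrank F K with hm
  have hi : ∀ z : K, IsIntegral F z := fun z => Algebra.IsIntegral.isIntegral z
  have hmpos : 0 < m := Module.finrank_pos
  have hlt : m - 1 < (minpoly F w).natDegree := by omega
  set l : K →ₗ[F] F := (pbas w hw).coord ⟨m - 1, hlt⟩ with hl
  set g₂ := minpoly F y₂ with hg₂
  set r : K := - aeval w g₂ with hr
  set U : Module.End F K := Algebra.lmul F K w + l.smulRight r with hU
  have hUa : ∀ v, U v = w * v + l v • r := fun v => rfl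
  have lpow : ∀ i, i < m - 1 → l (w ^ i) = 0 := by
    intro i hi
    have h := coord_aeval w hw ⟨m - 1, hlt⟩ (X ^ i) (by rw [natDegree_X_pow]; omega)
    rw [map_pow, aeval_X] at h
    rw [hl, h, coeff_X_pow, if_neg]
    simp only; omega
  have ltop : l (w ^ (m - 1)) = 1 := by
    have h := coord_aeval w hw ⟨m - 1, hlt⟩ (X ^ (m - 1)) (by rw [natDegree_X_pow]; omega)
    rw [map_pow, aeval_X] at h
    rw [hl, h, coeff_X_pow, if_pos rfl]
  have Upow : ∀ i, i ≤ m - 1 → (U ^ i) 1 = w ^ i := by
    intro i
    induction i with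
    | zero => intro _; simp
    | succ i ih =>
      intro h
      rw [pow_succ', Module.End.mul_apply, ih (by omega), hUa, lpow i (by omega), zero_smul,
        add_zero, pow_succ']
  have Utop : (U ^ m) 1 = w ^ m + r := by
    obtain ⟨j, hj⟩ : ∃ j, m = j + 1 := ⟨m - 1, by omega⟩
    rw [hj, pow_succ', Module.End.mul_apply, Upow j (by omega), hUa]
    have : l (w ^ j) = 1 := by
      have : j = m - 1 := by omega
      rw [this]; exact ltop
    rw [this, one_smul, pow_succ']
  have hg₂deg : g₂.natDegree = m := hy₂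
  have hg₂mon : g₂.Monic := minpoly.monic (hi _)
  -- the polynomial annihilates the cyclic vector
  have A1 : (aeval U g₂) 1 = 0 := by
    rw [aeval_eq_sum_range, hg₂deg, Finset.sum_range_succ, LinearMap.add_apply,
      LinearMap.sum_apply]
    have e1 : ∑ i ∈ Finset.range m, (g₂.coeff i • U ^ i) 1 = ∑ i ∈ Finset.range m,
        g₂.coeff i • w ^ i := by
      refine Finset.sum_congr rfl fun i hi => ?_
      rw [LinearMap.smul_apply, Upow i (by have := Finset.mem_range.1 hi; omega)]
    have e2 : aeval w g₂ = ∑ i ∈ Finset.range m, g₂.coeff i • w ^ i + w ^ m := by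
      rw [aeval_eq_sum_range, hg₂deg, Finset.sum_range_succ]
      congr 1
      rw [← hg₂deg, hg₂mon.coeff_natDegree, one_smul]
    rw [e1, LinearMap.smul_apply, Utop]
    have e3 : g₂.coeff m = 1 := by rw [← hg₂deg]; exact hg₂mon.coeff_natDegree
    rw [e3, one_smul, ← add_assoc, ← e2, hr, add_neg_cancel]
  have A2 : aeval U g₂ = 0 := by
    refine (pbas w hw).ext fun i => ?_
    rw [pbas_apply, LinearMap.zero_apply, ← Upow i (by have := i.2; omega)]
    have := intertwine (T := U ^ (i : ℕ)) U U (fun v => by
      rw [← Module.End.mul_apply, ← Module.End.mul_apply, ← pow_succ, ← pow_succ']) g₂ 1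
    rw [← this, A1, map_zero]
  -- U is a k-th power
  have A3 : Pw k U := by
    obtain ⟨ρ, hρ⟩ := exists_poly y₂ hy₂ β
    have hd : g₂ ∣ ρ ^ k - X := by
      apply minpoly.dvd
      rw [map_sub, map_pow, hρ, aeval_X, hβ, sub_self]
    obtain ⟨q, hq⟩ := hd
    refine ⟨aeval U ρ, ?_⟩
    have := congrArg (aeval U) hq
    rw [map_sub, map_pow, map_mul, A2, zero_mul, aeval_X, sub_eq_zero] at this
    exact this
  refine ⟨l, r, ?_, Algebra.lmul F K y, U, ?_, by rw [← hα]; exact lmul_pw k α, A3,
    aeval_lmul y, A2⟩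
  · -- the value l r
    have hgw : (minpoly F w).Monic := minpoly.monic (hi _)
    have hdeg : (g₂ - minpoly F w).natDegree < (minpoly F w).natDegree := by
      rw [hw]
      by_cases h0 : g₂ - minpoly F w = 0
      · rw [h0, natDegree_zero]; exact hmpos
      · have h1 : (g₂ - minpoly F w).degree < g₂.degree := by
          apply degree_sub_lt_left
          · rw [degree_eq_natDegree hg₂mon.ne_zero, degree_eq_natDegree hgw.ne_zero, hg₂deg, hw]
          · exact hg₂mon.ne_zero
          · rw [hg₂mon.leadingCoeff, hgw.leadingCoeff]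
        have h2 := natDegree_lt_natDegree h0 h1
        omega
    have h1 := coord_aeval w hw ⟨m - 1, hlt⟩ (g₂ - minpoly F w) hdeg
    rw [map_sub, minpoly.aeval, sub_zero, coeff_sub] at h1
    have h2 : l r = -(g₂.coeff (m - 1) - (minpoly F w).coeff (m - 1)) := by
      rw [hr, map_neg, hl, h1]
    have h3 : g₂.coeff (m - 1) = g₂.nextCoeff := by
      rw [nextCoeff_of_natDegree_pos (by omega), hg₂deg]
    have h4 : (minpoly F w).coeff (m - 1) = (minpoly F w).nextCoeff := by
      rw [nextCoeff_of_natDegree_pos (by omega), hw]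
    have h5 := trace_gen w hw
    have h6 := trace_gen y₂ hy₂
    rw [h2, h3, h4]
    have h7 : Algebra.trace F K w = m • c - Algebra.trace F K y := by
      rw [hwdef, map_sub, Algebra.trace_algebraMap]
    rw [map_add, h6]
    rw [h7] at h5
    rw [← hg₂]
    linear_combination h5
  · -- decomposition
    rw [hU, ← add_assoc, ← map_add, hwdef, add_sub_cancel, AlgHom.commutes,
      Algebra.algebraMap_eq_smul_one]

end cyc

/-- nearly scalar operators. -/
theorem T2 (k : ℕ) (hk : 1 ≤ k) (F : Type) [Field F] [Fintype F] (s : ℕ) :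
    ∃ m : ℕ, s < m ∧ 2 ≤ m ∧ ∀ c z : F, z ≠ c → ∃ P Q : F[X], Irreducible P ∧ Irreducible Q ∧
      P.natDegree = m ∧ Q.natDegree = m ∧
      ∀ (V : Type) [AddCommGroup V] [Module F V] [FiniteDimensional F V],
        Module.finrank F V = m - 1 →
        SolP k (LinearMap.prodMap (z • (1 : Module.End F F)) (c • (1 : Module.End F V)) :
          Module.End F (F × V)) P Q := by
  classical
  obtain ⟨Q₀, hQ₀⟩ := many k hk (2 * Fintype.card F)
  obtain ⟨m, hm, hmp⟩ := Nat.exists_infinite_primes (s + Q₀ + 3)
  refine ⟨m, by omega, hmp.two_le, fun c z hzc => ?_⟩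
  obtain ⟨K, _, _, _, hK1, hK2⟩ := exists_ext F m (by omega)
  have hfd : FiniteDimensional F K := Module.Finite.of_finite
  have hi : ∀ z : K, IsIntegral F z := fun z => Algebra.IsIntegral.isIntegral z
  have hcard : Q₀ ≤ Fintype.card K := by
    rw [hK2]
    have h2 : 2 ≤ Fintype.card F := Fintype.one_lt_card
    calc Q₀ ≤ m := by omega
      _ ≤ 2 ^ m := Nat.lt_two_pow_self.le
      _ ≤ _ := Nat.pow_le_pow_left h2 m
  -- an element with prescribed trace
  obtain ⟨t, ht0, ht⟩ : ∃ t : K, t ≠ 0 ∧ Algebra.trace F K t = z + ((m - 1 : ℕ) : F) * c := by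
    obtain ⟨t, ht⟩ := Algebra.trace_surjective F K (z + ((m - 1 : ℕ) : F) * c)
    by_cases h0 : t = 0
    · have hker : LinearMap.ker (Algebra.trace F K) ≠ ⊥ := by
        intro hbot
        have h1 := LinearMap.finrank_range_add_finrank_ker (Algebra.trace F K)
        rw [hbot, finrank_bot, add_zero, hK1] at h1
        have h2 : Module.finrank F (LinearMap.range (Algebra.trace F K)) ≤ 1 := by
          simpa using (Submodule.finrank_le (LinearMap.range (Algebra.trace F K)))
        omega
      obtain ⟨u, hu, hu0⟩ := Submodule.exists_mem_ne_zero_of_ne_bot hker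
      refine ⟨u, hu0, ?_⟩
      rw [LinearMap.mem_ker.1 hu, ← ht, h0, map_zero]
    · exact ⟨t, h0, ht⟩
  -- degrees in the field K
  have hdeg : ∀ x : K, x ∉ (algebraMap F K).range → (minpoly F x).natDegree = m := by
    intro x hx
    have h1 : (minpoly F x).natDegree ∣ m := by
      have := minpoly.degree_dvd (hi x)
      rwa [hK1] at this
    rcases (Nat.dvd_prime hmp).1 h1 with h2 | h2
    · exact absurd (minpoly.natDegree_eq_one_iff.1 h2) hx
    · exact h2
  obtain ⟨y, hy, hy1, hy2⟩ := card_bad t _ (fun y : K => y ∈ (algebraMap F K).range)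
    (Fintype.card F) (fun S hS => by
      have : S ⊆ Finset.univ.image (algebraMap F K) := by
        intro x hx
        obtain ⟨a, ha⟩ := hS x hx
        exact Finset.mem_image.2 ⟨a, Finset.mem_univ _, ha⟩
      exact (Finset.card_le_card this).trans (Finset.card_image_le)) (hQ₀ K hcard _ ht0)
  rw [Finset.mem_filter, mem_kp, mem_kp] at hy
  obtain ⟨⟨α, -, hα⟩, ⟨β, -, hβ⟩⟩ := hy
  have hw : algebraMap F K c - y ∉ (algebraMap F K).range := by
    rintro ⟨a, ha⟩
    exact hy1 ⟨c - a, by rw [map_sub, ha]; ring⟩
  obtain ⟨l, r, hlr, hsol⟩ := nearly (F := F) k y (t - y) α β hα hβ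
    (by rw [hK1]; exact hdeg _ hy1) (by rw [hK1]; exact hdeg _ hy2) c
    (by rw [hK1]; exact hdeg _ hw)
  have hlr' : l r = z - c := by
    rw [hlr, add_sub_cancel, ht, hK1, nsmul_eq_mul]
    have : (m : F) = ((m - 1 : ℕ) : F) + 1 := by
      have : m = (m - 1) + 1 := by omega
      conv_lhs => rw [this]
      push_cast; ring
    rw [this]; ring
  refine ⟨minpoly F y, minpoly F (t - y), minpoly.irreducible (hi _), minpoly.irreducible (hi _),
    hdeg _ hy1, hdeg _ hy2, ?_⟩
  intro V _ _ _ hV
  have hlr0 : l r ≠ 0 := by rw [hlr']; exact sub_ne_zero.2 hzc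
  -- the kernel of l
  have hker : Module.finrank F (LinearMap.ker l) = m - 1 := by
    have h1 := LinearMap.finrank_range_add_finrank_ker l
    have h2 : LinearMap.range l = ⊤ := by
      rw [LinearMap.range_eq_top]
      intro a
      exact ⟨(a / l r) • r, by rw [map_smul, smul_eq_mul, div_mul_cancel₀ _ hlr0]⟩
    rw [h2, finrank_top, Module.finrank_self, hK1] at h1
    omega
  let ε : V ≃ₗ[F] LinearMap.ker l := LinearEquiv.ofFinrankEq _ _ (hV.trans hker.symm)
  let T : (F × V) →ₗ[F] K := (LinearMap.toSpanSingleton F K r).coprod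
    ((LinearMap.ker l).subtype.comp ε.toLinearMap)
  have hT : ∀ a v, T (a, v) = a • r + (ε v : K) := fun a v => by simp [T]
  have hlε : ∀ v, l (ε v : K) = 0 := fun v => LinearMap.mem_ker.1 (ε v).2
  have hinj : Function.Injective T := by
    rw [injective_iff_map_eq_zero]
    rintro ⟨a, v⟩ h
    rw [hT] at h
    have h1 := congrArg l h
    rw [map_add, map_smul, hlε, add_zero, map_zero, smul_eq_mul] at h1
    have ha : a = 0 := (mul_eq_zero.1 h1).resolve_right hlr0
    rw [ha, zero_smul, zero_add] at h
    have hv : ε v = 0 := Subtype.ext h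
    have hv' : v = 0 := by simpa using hv
    rw [ha, hv']; rfl
  have hfr : Module.finrank F (F × V) = Module.finrank F K := by
    rw [Module.finrank_prod, Module.finrank_self, hV, hK1]; omega
  refine hsol.sim (Sim.symm ⟨T.linearEquivOfInjective hinj hfr, ?_⟩)
  rintro ⟨a, v⟩
  rw [LinearMap.linearEquivOfInjective_apply, LinearMap.linearEquivOfInjective_apply]
  have e1 : (LinearMap.prodMap (z • (1 : Module.End F F)) (c • (1 : Module.End F V)) :
      Module.End F (F × V)) (a, v) = (z * a, c • v) := rfl
  rw [e1, hT, hT]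
  show (z * a) • r + ((ε (c • v) : LinearMap.ker l) : K)
    = c • (a • r + (ε v : K)) + l (a • r + (ε v : K)) • r
  rw [map_add, hlε, add_zero, map_smul, map_smul, hlr', Submodule.coe_smul, smul_add, smul_eq_mul,
    smul_smul]
  have : (z * a) • r = (c * a) • r + (a * (z - c)) • r := by
    rw [← add_smul]; congr 1; ring
  rw [this]; abel

end Pool.Agent.H709L
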